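import Pool.Agent.H38.SE.Defs

/-! # Part A: finite sets, countability, sequences, reals. Targets -/

set_option linter.unusedVariables false

open Ordinal Order Set
open scoped ZFSet

namespace SE

open SF

/-- AA: hereditarily finite sets -/
def T_AA : Prop :=
  hf.IsTransitive ∧ (∀ n : ℕ, nS n ∈ hf) ∧ om ⊆ hf ∧ (∀ x ∈ hf, ∀ y ∈ hf, ZFSet.pair x y ∈ hf) ∧
  (∀ x : V, x ⊆ hf → (x : Set V).Finite → x ∈ hf) ∧ (∀ x ∈ hf, (x : Set V).Finite) ∧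
  (∀ F : Set V, F.Finite → ∃ j ∈ hf, j ∉ F) ∧
  Tm ZFm (fun _ _ => hf) ∧ ∀ M, ZFm M → Ctbl M hf

/-- AB: finite subsets -/
def T_AB : Prop :=
  (∀ x y : V, y ∈ Fs x ↔ y ⊆ x ∧ (y : Set V).Finite) ∧ Tm ZFm (fun _ v => Fs (v 0)) ∧
  ∀ M, ZFm M → ∀ x y, M x → y ⊆ x → (y : Set V).Finite → M y ∧ Ctbl M y

/-- AC: countability in models of `ZFm` -/
def T_AC : Prop := ∀ M, ZFm M →
  (∀ x, Ctbl M x → M x) ∧ (∀ x y, M x → Ctbl M y → x ⊆ y → Ctbl M x) ∧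
  (∀ x y, Ctbl M x → Ctbl M y → Ctbl M (ZFSet.prod x y)) ∧
  (∀ x y, Ctbl M x → Ctbl M y → Ctbl M (x ∪ y)) ∧ (∀ x, Ctbl M x → Ctbl M (Fs x)) ∧
  ∀ x f, M f → Svl f → Ctbl M x → dm f ⊆ x → Ctbl M (rg f)

/-- AD: countable unions -/
def T_AD : Prop := ∀ M, ZFCm M → ∀ S, Ctbl M S → (∀ x ∈ S, Ctbl M x) → Ctbl M (⋃₀ S : ZFSet)

/-- AE: countable closures -/
def T_AE : Prop := ∀ M, ZFCm M → ∀ X Ψ, M X → M Ψ →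
  (∀ e ∈ Fs X, app Ψ e ⊆ X ∧ Ctbl M (app Ψ e)) →
  ∀ Y0, Y0 ⊆ X → Ctbl M Y0 →
    ∃ Y, Ctbl M Y ∧ Y0 ⊆ Y ∧ Y ⊆ X ∧ ∀ e ∈ Fs Y, app Ψ e ⊆ Y

/-- AF: finite sequences -/
def T_AF : Prop :=
  (∀ b : V, b ∈ sq ↔ ∃ n : ℕ, Sq n b) ∧ Sq 0 ∅ ∧ Tm ZFm (fun _ _ => sq) ∧
  (∀ M, ZFm M → Ctbl M sq) ∧
  (∀ n b, Sq n b → b ∈ hf ∧ Svl b ∧ dm b = nS n ∧ (∀ m < n, app b (nS m) ∈ hf) ∧
    rs b (nS n) = b ∧ ∀ m ≤ n, Sq m (rs b (nS m)) ∧ rs b (nS m) ⊆ b ∧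
      ∀ l < m, app (rs b (nS m)) (nS l) = app b (nS l)) ∧
  (∀ n b a, Sq n b → a ∈ hf → Sq (n + 1) (insert (ZFSet.pair (nS n) a) b) ∧
    app (insert (ZFSet.pair (nS n) a) b) (nS n) = a ∧
    ∀ l < n, app (insert (ZFSet.pair (nS n) a) b) (nS l) = app b (nS l)) ∧
  (∀ n b m c, Sq n b → Sq m c → (b ⊆ c ↔ n ≤ m ∧ ∀ l < n, app b (nS l) = app c (nS l))) ∧
  (∀ n b m c, Sq n b → Sq m c → b ⊆ c → b = rs c (nS n)) ∧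
  ∀ n b m c, Sq n b → Sq m c → (b ⊆ c ∨ c ⊆ b) →
    Sq (max n m) (b ∪ c) ∧ (b ∪ c = b ∨ b ∪ c = c)

/-- AG: reals -/
def T_AG : Prop :=
  (∀ x, Rl x → Svl x ∧ dm x = om ∧ (∀ n : ℕ, app x (nS n) ∈ hf ∧ Sq n (rs x (nS n)) ∧
    rs x (nS n) ⊆ x ∧ ∀ l < n, app (rs x (nS n)) (nS l) = app x (nS l)) ∧
    ∀ m n : ℕ, m ≤ n → rs (rs x (nS n)) (nS m) = rs x (nS m)) ∧
  (∀ x n b, Rl x → Sq n b → (b ⊆ x ↔ b = rs x (nS n))) ∧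
  (∀ x y, Rl x → Rl y → (∀ n : ℕ, app x (nS n) = app y (nS n)) → x = y) ∧
  (∀ x y, Rl x → Rl y → (∀ n : ℕ, ∃ m : ℕ, n ≤ m ∧ rs x (nS m) = rs y (nS m)) → x = y) ∧
  (∀ C : V, C ⊆ sq → (∀ b ∈ C, ∀ c ∈ C, b ⊆ c ∨ c ⊆ b) →
    (∀ n : ℕ, ∃ (m : ℕ) (b : V), n ≤ m ∧ Sq m b ∧ b ∈ C) →
    Rl (⋃₀ C : ZFSet) ∧ ∀ b ∈ C, b ⊆ (⋃₀ C : ZFSet)) ∧
  ∀ F : V → V, (∀ n : ℕ, F (nS n) ∈ hf) →
    Rl (resS om F) ∧ ∀ n : ℕ, app (resS om F) (nS n) = F (nS n)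

/-- AH: pairs of reals, constants -/
def T_AH : Prop :=
  (∀ x y, Rl x → Rl y → Rl (prl x y) ∧
    ∀ n : ℕ, app (prl x y) (nS n) = ZFSet.pair (app x (nS n)) (app y (nS n))) ∧
  (∀ x y x' y', Rl x → Rl y → Rl x' → Rl y' → prl x y = prl x' y' → x = x' ∧ y = y') ∧
  (∀ x y x' y', Rl x → Rl y → Rl x' → Rl y' → ∀ n : ℕ,
    (rs (prl x y) (nS n) = rs (prl x' y') (nS n) ↔
      rs x (nS n) = rs x' (nS n) ∧ rs y (nS n) = rs y' (nS n))) ∧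
  (∀ e : ℕ, Rl (kc e) ∧ ∀ n : ℕ, app (kc e) (nS n) = nS e) ∧
  (∀ e e' : ℕ, kc e = kc e' → e = e') ∧ ∀ x y, Rl x → Rl y → prl x y ≠ kc 0

/-- AI: definability -/
def T_AI : Prop :=
  Dfb ZFm (fun _ v => Rl (v 0)) ∧ Tm ZFm (fun _ v => rs (v 0) (v 1)) ∧
  Tm ZFm (fun _ v => prl (v 0) (v 1)) ∧ (∀ e : ℕ, Tm ZFm (fun _ _ => kc e)) ∧
  Dfb ZFm (fun _ v => Opn (v 0) (v 1)) ∧ Dfb ZFm (fun M v => P3 M (v 0) (v 1)) ∧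
  Dfb ZFm (fun M v => S4 M (v 0) (v 1)) ∧ Dfb ZFm (fun M v => Cod M (v 0) (v 1))

end SE
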