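import Pool.Agent.H38.SE.TarZ

/-! # ZB: criterion for legal labels -/

set_option linter.unusedVariables false

open Ordinal Order Set
open scoped ZFSet

namespace SE

open SF

theorem pf_ZB (hAH : T_AH) (hBA : T_BA) (hBJ : T_BJ) (hBK : T_BK) (hBR : T_BR) (hZA : T_ZA) :
    T_ZB := by
  intro D hF e s Y Z A B he hsH hsL hsT hNY hNZ hNA hNB hY hZ hA hB hpro hrul
  obtain ⟨hLH, hCL, hleg, hcrit, -⟩ := hZA D hF
  obtain ⟨-, hHt, hHN, -, hmain⟩ := hBJ D hF.ok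
  obtain ⟨r1, r2, r3, r4, r5, r6, r7, r8, r9, r10⟩ := hBR D hF.ok
  obtain ⟨p1, p2, p3, p4, pn⟩ := r5 s hsH
  obtain ⟨a1, a2, a3, a4, a5, a6, a7⟩ := hBA.1 (nS e) ∅ s Y Z A B
  have hCs : Cld D.L s := (hBA.2.2.2.2.2.2 D.L D.Lam hCL).2.2 s hsL hsT
  have h0 : (∅ : V) ∈ D.H := hF.ok.zfH.mempty
  set i := lab (nS e) ∅ s Y Z A B with hi
  have hlab : Lab D.L i := by
    refine ⟨?_, ?_, ?_, ?_, ?_, ?_, ?_⟩
    · rw [a1, a2, a3, a4, a5, a6, a7]
    · rw [a1]
      interval_cases e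
      · exact Or.inl rfl
      · exact Or.inr (Or.inl rfl)
      · exact Or.inr (Or.inr rfl)
    · rw [a3]; exact hsT
    · rw [a3, a4]; exact hY
    · rw [a3, a5]; exact hZ
    · rw [a3, a6]; exact hA
    · rw [a3, a7]; exact hB
  refine hcrit i ⟨?_, hlab, ?_, ?_, ?_⟩ (by rw [a3]; exact hsL)
  · exact r6 _ _ _ _ _ _ _ (r10 e) h0 hsH (pn Y hNY hY) (pn Z hNZ hZ) (pn A hNA hA) (pn B hNB hB)
  · rw [a3]; exact hCs
  · intro G hG
    rw [a3] at hG ⊢
    rw [a4]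
    exact hpro G hG
  · intro G hG k hk
    rw [a3] at hG hk
    rcases hrul with h | h
    · exact h G hG k hk
    · have hz : ev G (lZ i) = kc 0 := by rw [a5]; exact h G hG
      have hrk : Rl (cg G k) := ((hBK D hF.ok s G (hHN s hsH) hCs hG).2 k hk).1
      have hne : ∀ x y, Rl x → Rl y → kc 0 ≠ prl x y := fun x y hx hy h =>
        hAH.2.2.2.2.2 x y hx hy h.symm
      have hkc : ∀ e, Rl (kc e) := fun e => (hAH.2.2.2.1 e).1
      refine ⟨?_, ?_, ?_, ?_⟩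
      · intro _ _ y _ hy h'
        rw [hz] at h'
        exact absurd h' (hne _ _ (hkc 0) (hAH.1 _ _ hrk hy).1)
      · intro _ _ y _ hy h'
        rw [hz] at h'
        exact absurd h' (hne _ _ (hkc 1) (hAH.1 _ _ hrk hy).1)
      · intro _ h'
        rw [hz] at h'
        exact absurd h' (hne _ _ (hkc 2) hrk)
      · intro _ h'
        rw [hz] at h'
        exact absurd h' (hne _ _ (hkc 3) hrk)

end SE
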