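import Pool.Agent.H38.SE.TarZ

/-! # ZH: labels with given codes -/

set_option linter.unusedVariables false

open Ordinal Order Set
open scoped ZFSet

namespace SE

open SF

theorem pf_ZH (hAH : T_AH) (hBA : T_BA) (hBBa : T_BBa) (hBJ : T_BJ) (hBK : T_BK) (hBO : T_BO)
    (hSA : T_SA) (hZA : T_ZA) (hZB : T_ZB) : T_ZH := by
  intro D hF G hG e a b he haW hra hbW hrb
  obtain ⟨hLH, hCL, -, -, hZAG⟩ := hZA D hF
  obtain ⟨hst, -, hsup⟩ := hZAG G hG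
  obtain ⟨-, hHt, hHN, -, hmain⟩ := hBJ D hF.ok
  have h0 : (∅ : V) ∈ D.H := hF.ok.zfH.mempty
  have hsE : (∅ : V) ⊆ D.Lam ∧ Tr (∅ : V) :=
    ⟨fun y hy => absurd hy (ZFSet.notMem_empty y), fun y hy => absurd hy (ZFSet.notMem_empty y)⟩
  obtain ⟨s1, hs1H, -, hs1L, hs1T, has1⟩ := (hsup ∅ h0 hsE.1 hsE.2).1 a haW hra
  obtain ⟨s, hsH, hs1s, hsL, hsT, hbs⟩ := (hsup s1 hs1H hs1L hs1T).1 b hbW hrb
  obtain ⟨hSt1, -, -, -, -, hEx1⟩ := hst s1 hs1H hs1L hs1T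
  have has : D.W (gs G s) a := ((hSA D hF.ok s1 (gs G s1) hSt1).2.2.2.2 s (gs G s)
    (hEx1 s hsH hs1s hsL hsT)).2.2.1 a has1
  obtain ⟨hSt, -, -, -, hval, -⟩ := hst s hsH hsL hsT
  have hNs : D.N s := hHN s hsH
  obtain ⟨hO1, -, -, hO4, -, -⟩ := hBO D hF.ok s hNs hSt.c
  obtain ⟨τa, hτa, ha'⟩ := has
  obtain ⟨τb, hτb, hb'⟩ := hbs
  obtain ⟨A, hNA, hA, hAv⟩ := hO1 τa hτa
  obtain ⟨B, hNB, hB, hBv⟩ := hO1 τb hτb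
  obtain ⟨hNk, hk, hkv⟩ := hO4 0
  have hk0 := hZB D hF e s (knm D.L s 0) (knm D.L s 0) A B he hsH hsL hsT hNk hNk hNA hNB hk hk
    hA hB (by
      intro G' hG' hp
      rw [hkv G' hG'] at hp
      obtain ⟨j, hj, h1, h2⟩ := hp
      obtain ⟨hb, hc⟩ := hBK D hF.ok s G' hNs hSt.c hG'
      obtain ⟨hjl, hjs, hjc, -, -⟩ := (hBA.2.2.2.2.2.2 D.L s hSt.c).2.1 j hj
      have kN : ZFm D.N := hF.ok.zfc.toZFCm.toZFm
      have hjN : D.N j := kN.trans _ hNs j hj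
      have n1 : D.N (lS j) := hBBa.2.2.2.2.1.1 D.N kN (fun _ => j) fun _ => hjN
      have n2 : D.N (lZ j) := hBBa.2.2.2.2.2.2.1.1 D.N kN (fun _ => j) fun _ => hjN
      have h3 : Rl (ev G' (lZ j)) :=
        (hb (lS j) (lZ j) n1 hjs (hBA.2.2.2.2.2.2 D.L _ hjc).1 n2 hjl.z).1
      exact hAH.2.2.2.2.2 _ _ h3 (hc j hj).1 h2.symm) (Or.inr hkv)
  have hB2 := (hBK D hF.ok D.Lam G hF.lam hCL hG).1
  refine ⟨_, hk0, (hBA.1 _ _ _ _ _ _ _).1, ?_, ?_⟩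
  · rw [(hBA.1 _ _ _ _ _ _ _).2.2.2.2.2.1,
      ← (hB2 s A hNs hsL hsT hNA hA).2.2.2.2.2 s fun _ h => h, ha']
    refine (hAv (gs G s) hSt.g).1 ?_
    rw [← ha']
    exact hra
  · rw [(hBA.1 _ _ _ _ _ _ _).2.2.2.2.2.2,
      ← (hB2 s B hNs hsL hsT hNB hB).2.2.2.2.2 s fun _ h => h, hb']
    refine (hBv (gs G s) hSt.g).1 ?_
    rw [← hb']
    exact hrb

end SE
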