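import Pool.Agent.H38.SE.ZN

/-! # ZK: separation -/

set_option linter.unusedVariables false

open Ordinal Order Set
open scoped ZFSet

namespace SE

open SF

/-- the values of the codes of a label -/
theorem zk_val {D : Cx} (hBA : T_BA) (hBBa : T_BBa) (hBK : T_BK) (hok : D.Ok) {ρ G k : V}
    (hN : D.N ρ) (hC : Cld D.L ρ) (hG : D.Gn ρ G) (hk : k ∈ ρ) :
    (Rl (ev G (lA k)) ∧ D.W G (ev G (lA k))) ∧ (Rl (ev G (lB k)) ∧ D.W G (ev G (lB k))) := by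
  obtain ⟨hl, hsub, hcl, -, -⟩ := (hBA.2.2.2.2.2.2 D.L ρ hC).2.1 k hk
  have kN : ZFm D.N := hok.zfc.toZFCm.toZFm
  have hkN : D.N k := kN.trans _ hN k hk
  have h1 : D.N (lS k) := hBBa.2.2.2.2.1.1 D.N kN (fun _ => k) fun _ => hkN
  have h2 : D.N (lA k) := hBBa.2.2.2.2.2.2.2.1.1 D.N kN (fun _ => k) fun _ => hkN
  have h3 : D.N (lB k) := hBBa.2.2.2.2.2.2.2.2.1.1 D.N kN (fun _ => k) fun _ => hkN
  have hT : Tr (lS k) := (hBA.2.2.2.2.2.2 D.L _ hcl).1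
  obtain ⟨hb, -⟩ := hBK D hok ρ G hN hC hG
  obtain ⟨a1, a2, -⟩ := hb (lS k) (lA k) h1 hsub hT h2 hl.a
  obtain ⟨b1, b2, -⟩ := hb (lS k) (lB k) h1 hsub hT h3 hl.b
  exact ⟨⟨a1, a2⟩, ⟨b1, b2⟩⟩

theorem pf_ZK (hAH : T_AH) (hAI : T_AI) (hBA : T_BA) (hBBa : T_BBa) (hBJ : T_BJ) (hBK : T_BK) (hBL : T_BL)
    (hSA : T_SA) (hZY : T_ZY)    (hZA : T_ZA) (hZE : T_ZE) (hZF : T_ZF) (hZG : T_ZG) (hZH : T_ZH) (hZI : T_ZI) (hZJ : T_ZJ)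
    (hSUB : T_SUB) : T_ZK := by
  intro D hF G hG hCm a b haW hra hbW hrb hdis
  obtain ⟨a0, ha0, hra0, hc⟩ := hCm
  obtain ⟨hLH, hCL, -, -, hZAG⟩ := hZA D hF
  obtain ⟨hst, -, hsup⟩ := hZAG G hG
  obtain ⟨-, hHt, hHN, -, hmain⟩ := hBJ D hF.ok
  obtain ⟨-, hm⟩ := hmain D.Lam hF.lam hCL
  obtain ⟨⟨hzfc, hsub, -, -, -⟩, -, -⟩ := hm G hG
  have k : ZFm (D.W G) := hzfc.toZFCm.toZFm
  have hprl : ∀ x y, D.W G x → D.W G y → Rl x → Rl y → D.W G (prl x y) ∧ Rl (prl x y) := by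
    intro x y hx hy hrx hry
    refine ⟨?_, (hAH.1 x y hrx hry).1⟩
    exact hAI.2.2.1.1 (D.W G) k (cons x (cons y fun _ => x))
      (In.cons (In.cons (fun _ => hx) hy) hx)
  have hkc : ∀ e : ℕ, D.W G (kc e) ∧ Rl (kc e) := fun e =>
    ⟨hAI.2.2.2.1 e |>.1 (D.W G) k (fun _ => a0) (fun _ => ha0), (hAH.2.2.2.1 e).1⟩
  have hne : ∀ e : ℕ, ∀ y, Rl y → prl (kc e) y ≠ kc 0 := fun e y hy =>
    hAH.2.2.2.2.2 _ _ (hkc e).2 hy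
  obtain ⟨k0, hk0, hkE, hkA, hkB⟩ := hZH D hF G hG 1 a b (by norm_num) haW hra hbW hrb
  have hU : D.Unk k0 G := by
    refine hZI D hF G hG k0 hk0 ?_
    rw [hkA, hkB]
    exact hdis
  obtain ⟨hrx, hxW, -⟩ := (hBK D hF.ok D.Lam G hF.lam hCL hG).2 k0 hk0
  have hS : ∀ e : ℕ, ∃ c, D.W G c ∧ Rl c ∧ ∀ y, D.W G y → Rl y →
      (S4 (D.W G) c y ↔ ∃ i ∈ D.Lam, ev G (lZ i) = prl (kc e) (prl (cg G k0) y)) := by
    intro e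
    obtain ⟨c, hc1, hc2, hc3⟩ := (hSUB (D.W G) k a0 (cg G k0) ha0 hra0 hxW hrx e).1
    refine ⟨c, hc1, hc2, fun y hy hry => ?_⟩
    rw [hc3 y hy hry]
    obtain ⟨h0, h0'⟩ := hprl (cg G k0) y hxW hy hrx hry
    obtain ⟨h1, h2⟩ := hprl (kc e) _ (hkc e).1 h0 (hkc e).2 h0'
    exact zn_cmx hZF hF hG hc hprl h1 h2 (hne e _ h0')
  obtain ⟨c, hcW, hrc, hcS⟩ := hS 0
  obtain ⟨d, hdW, hrd, hdS⟩ := hS 1
  refine ⟨c, d, hcW, hrc, hdW, hrd, fun x hxW' hrx' => ?_⟩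
  -- a support
  obtain ⟨hkl, hksub, hkcl, hkins, hkins'⟩ := (hBA.2.2.2.2.2.2 D.L D.Lam hCL).2.1 k0 hk0
  have hsE : (∅ : V) ∈ D.H ∧ (∅ : V) ⊆ D.Lam ∧ Tr (∅ : V) := by
    refine ⟨(hF.ok.zfH).mempty, fun y hy => absurd hy (ZFSet.notMem_empty y),
      fun y hy => absurd hy (ZFSet.notMem_empty y)⟩
  obtain ⟨s1, hs1H, -, hks1, hs1L, hs1T⟩ := (hsup ∅ hsE.1 hsE.2.1 hsE.2.2).2.1 k0 hk0
  obtain ⟨s, hsH, hs1s, hsL, hsT, hxs⟩ := (hsup s1 hs1H hs1L hs1T).1 x hxW' hrx'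
  have hks : k0 ∈ s := hs1s hks1
  obtain ⟨hJ0, hJ1⟩ := hZJ D hF G hG k0 hk0 hkE hU s hsH hsL hsT hks x hxs hrx'
  have hcx := (hcS x hxW' hrx').trans hJ0.symm
  have hdx := (hdS x hxW' hrx').trans hJ1.symm
  have hex : ∀ s' ∈ D.H, s' ⊆ D.Lam → Tr s' → k0 ∈ s' →
      (D.W (gs G s') a ∧ D.W (gs G s') b) ∧ ev (gs G s') (lA k0) = a ∧
        ev (gs G s') (lB k0) = b ∧ D.Ex s' (gs G s') s' (gs G s') ∧
        D.Cl (lS k0) s' (gs G s') := by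
    intro s' hs'H hs'L hs'T hks'
    obtain ⟨hSt, hcl, -, -, hv, hEx⟩ := hst s' hs'H hs'L hs'T
    obtain ⟨-, -, -, v1, v2⟩ := hv k0 hks'
    obtain ⟨⟨-, h1⟩, -, h2⟩ := zk_val hBA hBBa hBK hF.ok (hHN s' hs'H) hSt.c hSt.g hks'
    rw [v1, hkA] at h1
    rw [v2, hkB] at h2
    exact ⟨⟨h1, h2⟩, v1.trans hkA, v2.trans hkB, hEx s' hs'H (fun _ h => h) hs'L hs'T,
      hcl _ (hs'T k0 hks')⟩
  obtain ⟨⟨has, hbs⟩, hvA, hvB, hExs, hCls⟩ := hex s hsH hsL hsT hks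
  refine ⟨?_, ?_, ?_⟩
  · rw [hcx, hdx, not_not]
  · intro h
    obtain ⟨s', hs'H, hss', hs'L, hs'T, hsec⟩ := (hZE D hF G hG s hsH hsL hsT a x has hra hxs
      hrx').1 h
    have hks' : k0 ∈ s' := hss' hks
    obtain ⟨⟨has', hbs'⟩, hvA', hvB', hExs', hCls'⟩ := hex s' hs'H hs'L hs'T hks'
    have hxs' : D.W (gs G s') x :=
      ((hSA D hF.ok s (gs G s) (hst s hsH hsL hsT).1).2.2.2.2 s' (gs G s')
        ((hst s hsH hsL hsT).2.2.2.2.2 s' hs'H hss' hs'L hs'T)).2.2.1 x hxs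
    obtain ⟨hJ0', -⟩ := hZJ D hF G hG k0 hk0 hkE hU s' hs'H hs'L hs'T hks' x hxs' hrx'
    refine (hcS x hxW' hrx').2 (hJ0'.1 ⟨s', gs G s', hExs', hCls', ?_⟩)
    rw [hvA']
    exact hsec
  · rintro ⟨h, h'⟩
    obtain ⟨s', hs'H, hss', hs'L, hs'T, hsec⟩ := (hZE D hF G hG s hsH hsL hsT b x hbs hrb hxs
      hrx').1 h
    have hks' : k0 ∈ s' := hss' hks
    obtain ⟨⟨has', hbs'⟩, hvA', hvB', hExs', hCls'⟩ := hex s' hs'H hs'L hs'T hks'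
    have hxs' : D.W (gs G s') x :=
      ((hSA D hF.ok s (gs G s) (hst s hsH hsL hsT).1).2.2.2.2 s' (gs G s')
        ((hst s hsH hsL hsT).2.2.2.2.2 s' hs'H hss' hs'L hs'T)).2.2.1 x hxs
    obtain ⟨hJ0', -⟩ := hZJ D hF G hG k0 hk0 hkE hU s' hs'H hs'L hs'T hks' x hxs' hrx'
    have hside := hJ0'.2 ((hcS x hxW' hrx').1 h')
    have hUs' := ((hZY D hF.ok D.Lam G hF.lam hCL hG).2.2 k0 hk0 s' (hHN s' hs'H) hs'L hs'T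
      hks').1.2 hU
    refine (hZG D hF s' (gs G s') s' (gs G s') k0 x (hst s' hs'H hs'L hs'T).1 hExs' hks' hCls'
      hxs' hrx').2 hside ?_ hUs'
    rw [hvB']
    exact hsec

end SE
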