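import Pool.Agent.H38.SE.ZK

/-! # ZL: labels of type 2, promises -/

set_option linter.unusedVariables false

open Ordinal Order Set
open scoped ZFSet

namespace SE

open SF

theorem pf_ZL (hAG : T_AG) (hAH : T_AH) (hAI : T_AI) (hBA : T_BA) (hBBa : T_BBa) (hBJ : T_BJ) (hBK : T_BK)
    (hSA : T_SA) (hZA : T_ZA) (hZE : T_ZE) (hZY : T_ZY) : T_ZL := by
  intro D hF G hG k hk hkE
  obtain ⟨hLH, hCL, hleg, -, hZAG⟩ := hZA D hF
  obtain ⟨hst, -, hsup⟩ := hZAG G hG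
  obtain ⟨-, hHt, hHN, -, hmain⟩ := hBJ D hF.ok
  have kN : ZFm D.N := hF.ok.zfc.toZFCm.toZFm
  obtain ⟨y1, y2, y3⟩ := hZY D hF.ok D.Lam G hF.lam hCL hG
  obtain ⟨hrk, hWk, -⟩ := (hBK D hF.ok D.Lam G hF.lam hCL hG).2 k hk
  have key : ∀ e : ℕ, ∀ i ∈ D.Lam, ev G (lZ i) = prl (kc e) (cg G k) →
      k ∈ lS i ∧ lS i ∈ D.H ∧ lS i ⊆ D.Lam ∧ Tr (lS i) ∧
      ev (gs G (lS i)) (lZ i) = prl (kc e) (cg (gs G (lS i)) k) := by
    intro e i hi he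
    obtain ⟨hil, his, hic, -, -⟩ := (hBA.2.2.2.2.2.2 D.L D.Lam hCL).2.1 i hi
    have hiH : i ∈ D.H := hLH hi
    have hsH : lS i ∈ D.H := hBBa.2.2.2.2.1.1 (· ∈ D.H) hF.ok.zfH (fun _ => i) fun _ => hiH
    have n2 : D.N (lZ i) := hBBa.2.2.2.2.2.2.1.1 D.N kN (fun _ => i) fun _ => hHN _ hiH
    have hT : Tr (lS i) := (hBA.2.2.2.2.2.2 D.L _ hic).1
    obtain ⟨hSt, -, -, -, hval, -⟩ := hst (lS i) hsH his hT
    obtain ⟨hb, hc⟩ := hBK D hF.ok D.Lam G hF.lam hCL hG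
    have h1 := (hb (lS i) (lZ i) (hHN _ hsH) his hT n2 hil.z).2.2.2.2.2 (lS i) fun _ h => h
    obtain ⟨hrz, hWz, -⟩ := (hBK D hF.ok (lS i) (gs G (lS i)) (hHN _ hsH) hSt.c hSt.g).1 (lS i)
      (lZ i) (hHN _ hsH) (fun _ h => h) hT n2 hil.z
    rw [h1, he] at hWz
    obtain ⟨⟨hzfc, -⟩, -⟩ := (hmain (lS i) (hHN _ hsH) hSt.c).2 (gs G (lS i)) hSt.g
    have kW : ZFm (D.W (gs G (lS i))) := hzfc.toZFCm.toZFm
    have hkW : D.W (gs G (lS i)) (cg G k) := by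
      have hsn : D.W (gs G (lS i)) (resS om fun n => snd (app (prl (kc e) (cg G k)) n)) :=
        (Tm.resS (g := fun _ v => snd (app (v 1) (v 0))) Tm.om
          (Tm.snd (Tm.app (Tm.var 1) (Tm.var 0)))).1 _ kW (fun _ => prl (kc e) (cg G k))
          fun _ => hWz
      have he2 : (resS om fun n => snd (app (prl (kc e) (cg G k)) n)) = cg G k := by
        have hv : ∀ n : ℕ, snd (app (prl (kc e) (cg G k)) (nS n)) = app (cg G k) (nS n) := by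
          intro n
          rw [(hAH.1 _ _ (hAH.2.2.2.1 e).1 hrk).2 n, snd_pair]
        obtain ⟨q1, q2⟩ := hAG.2.2.2.2.2 (fun n => snd (app (prl (kc e) (cg G k)) n))
          (fun n => by
            show snd (app (prl (kc e) (cg G k)) (nS n)) ∈ hf
            rw [hv n]
            exact ((hAG.1 _ hrk).2.2.1 n).1)
        refine hAG.2.2.1 _ _ q1 hrk fun n => ?_
        rw [q2 n]
        exact hv n
      rwa [he2] at hsn
    have hki : k ∈ lS i := y2 k hk (lS i) (hHN _ hsH) his hT hkW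
    refine ⟨hki, hsH, his, hT, ?_⟩
    rw [h1, he, (hval k hki).1]
  have key2 : ∀ i, k ∈ lS i → lS i ∈ D.H → lS i ⊆ D.Lam → Tr (lS i) →
      ∀ a, ev G a = ev (gs G (lS i)) a → Rl (ev (gs G (lS i)) a) →
      D.W (gs G (lS i)) (ev (gs G (lS i)) a) →
      D.SecS (lS i) (gs G (lS i)) (ev (gs G (lS i)) a) (cg (gs G (lS i)) k) →
      S4 (D.W G) (ev G a) (cg G k) := by
    intro i hki hsH his hT a ha hra hWa hsec
    obtain ⟨hSt, -, -, -, hval, hEx⟩ := hst (lS i) hsH his hT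
    obtain ⟨hrk', hWk', -⟩ := (hBK D hF.ok (lS i) (gs G (lS i)) (hHN _ hsH) hSt.c hSt.g).2 k hki
    have h1 := (hZE D hF G hG (lS i) hsH his hT (ev (gs G (lS i)) a) (cg (gs G (lS i)) k) hWa hra
      hWk' hrk').2 ⟨lS i, hsH, fun _ h => h, his, hT, hsec⟩
    rwa [← ha, (hval k hki).1] at h1
  refine ⟨?_, ?_⟩
  · rintro ⟨i, hi, he⟩
    obtain ⟨hki, hsH, his, hT, hz⟩ := key 2 i hi he
    obtain ⟨hSt, -, -, -, hval, hEx⟩ := hst (lS i) hsH his hT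
    have hob := (hleg i hi).o (gs G (lS i)) hSt.g k hki
    obtain ⟨h1, h2⟩ := hob.r2 hkE hz
    obtain ⟨-, ⟨h3, h4⟩⟩ := zk_val hBA hBBa hBK hF.ok (hHN _ hsH) hSt.c hSt.g hki
    exact ⟨(y3 k hk (lS i) (hHN _ hsH) his hT hki).2.1 h1,
      key2 i hki hsH his hT (lB k) (hval k hki).2.2.2.2.symm h3 h4 h2⟩
  · rintro ⟨i, hi, he⟩
    obtain ⟨hki, hsH, his, hT, hz⟩ := key 3 i hi he
    obtain ⟨hSt, -, -, -, hval, hEx⟩ := hst (lS i) hsH his hT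
    have hob := (hleg i hi).o (gs G (lS i)) hSt.g k hki
    obtain ⟨h1, h2⟩ := hob.r3 hkE hz
    obtain ⟨⟨h3, h4⟩, -⟩ := zk_val hBA hBBa hBK hF.ok (hHN _ hsH) hSt.c hSt.g hki
    exact ⟨fun h => h1 ((y3 k hk (lS i) (hHN _ hsH) his hT hki).2.2 h),
      key2 i hki hsH his hT (lA k) (hval k hki).2.2.2.1.symm h3 h4 h2⟩

end SE
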