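import Pool.Agent.H38.SE.TarZ

/-! # ZN: no reduction -/

set_option linter.unusedVariables false

open Ordinal Order Set
open scoped ZFSet

namespace SE

open SF

/-- the complexity of the set of the promised reals -/
theorem zn_cmx {D : Cx} (hZF : T_ZF) (hF : D.Ful) {G : V} (hG : D.Gn D.Lam G) {a0 : V}
    (hc : ∀ x, D.W G x → Rl x → (¬ Cod (D.W G) D.L x ↔ P3 (D.W G) a0 x))
    (hprl : ∀ x y, D.W G x → D.W G y → Rl x → Rl y → D.W G (prl x y) ∧ Rl (prl x y))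
    {z : V} (hz : D.W G z) (hrz : Rl z) (hz0 : z ≠ kc 0) :
    S4 (D.W G) a0 z ↔ ∃ i ∈ D.Lam, ev G (lZ i) = z := by
  rw [← hZF D hF G hG z hz hrz hz0]
  unfold S4
  constructor
  · rintro ⟨v, hv, hrv, h⟩
    obtain ⟨h1, h2⟩ := hprl z v hz hv hrz hrv
    exact ⟨v, hv, hrv, (hc _ h1 h2).2 h⟩
  · rintro ⟨v, hv, hrv, h⟩
    obtain ⟨h1, h2⟩ := hprl z v hz hv hrz hrv
    exact ⟨v, hv, hrv, (hc _ h1 h2).1 h⟩

theorem pf_ZN (hAH : T_AH) (hAI : T_AI) (hBJ : T_BJ) (hBK : T_BK) (hZA : T_ZA) (hZF : T_ZF)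
    (hZH : T_ZH) (hZL : T_ZL) (hZM : T_ZM) (hSUB : T_SUB) : T_ZN := by
  intro D hF G hG hCm
  obtain ⟨a0, ha0, hra0, hc⟩ := hCm
  obtain ⟨hLH, hCL, -, -, -⟩ := hZA D hF
  obtain ⟨-, -, -, -, hmain⟩ := hBJ D hF.ok
  obtain ⟨-, hm⟩ := hmain D.Lam hF.lam hCL
  obtain ⟨⟨hzfc, hsub, -, -, -⟩, -, -⟩ := hm G hG
  have k : ZFm (D.W G) := hzfc.toZFCm.toZFm
  have hprl : ∀ x y, D.W G x → D.W G y → Rl x → Rl y → D.W G (prl x y) ∧ Rl (prl x y) := by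
    intro x y hx hy hrx hry
    refine ⟨?_, (hAH.1 x y hrx hry).1⟩
    exact hAI.2.2.1.1 (D.W G) k (cons x (cons y fun _ => x))
      (In.cons (In.cons (fun _ => hx) hy) hx)
  have hkc : ∀ e : ℕ, D.W G (kc e) ∧ Rl (kc e) := fun e =>
    ⟨hAI.2.2.2.1 e |>.1 (D.W G) k (fun _ => a0) (fun _ => ha0), (hAH.2.2.2.1 e).1⟩
  have hne : ∀ e : ℕ, ∀ y, Rl y → prl (kc e) y ≠ kc 0 := fun e y hy =>
    hAH.2.2.2.2.2 _ _ (hkc e).2 hy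
  have hS : ∀ e : ℕ, ∃ c, D.W G c ∧ Rl c ∧ ∀ y, D.W G y → Rl y →
      (S4 (D.W G) c y ↔ ∃ i ∈ D.Lam, ev G (lZ i) = prl (kc e) y) := by
    intro e
    obtain ⟨c, hc1, hc2, hc3⟩ := (hSUB (D.W G) k a0 a0 ha0 hra0 ha0 hra0 e).2
    refine ⟨c, hc1, hc2, fun y hy hry => ?_⟩
    rw [hc3 y hy hry]
    obtain ⟨h1, h2⟩ := hprl (kc e) y (hkc e).1 hy (hkc e).2 hry
    exact zn_cmx hZF hF hG hc hprl h1 h2 (hne e y hry)
  obtain ⟨a, haW, hra, haS⟩ := hS 2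
  obtain ⟨b, hbW, hrb, hbS⟩ := hS 3
  refine ⟨a, b, haW, hra, hbW, hrb, fun c d hcW hrc hdW hrd hred => ?_⟩
  obtain ⟨k0, hk0, hkE, hkA, hkB⟩ := hZH D hF G hG 2 c d le_rfl hcW hrc hdW hrd
  obtain ⟨hrx, hxW, -⟩ := (hBK D hF.ok D.Lam G hF.lam hCL hG).2 k0 hk0
  obtain ⟨hL2, hL3⟩ := hZL D hF G hG k0 hk0 hkE
  obtain ⟨hM2, hM3, hMB⟩ := hZM D hF G hG k0 hk0 hkE
  rw [hkA] at hL3 hM3
  rw [hkB] at hL2 hMB
  obtain ⟨r1, r2, r3, r4⟩ := hred (cg G k0) hxW hrx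
  rw [haS _ hxW hrx, hbS _ hxW hrx] at *
  by_cases hB : D.Beta k0 G
  · have ha := hM2 hB
    have hnb : ¬ ∃ i ∈ D.Lam, ev G (lZ i) = prl (kc 3) (cg G k0) := fun h => (hL3 h).1 hB
    have hd : S4 (D.W G) d (cg G k0) := (hL2 ha).2
    rcases r4 (Or.inr hnb) with h | h
    · exact r1 h ha
    · exact h hd
  · have hna : ¬ ∃ i ∈ D.Lam, ev G (lZ i) = prl (kc 2) (cg G k0) := fun h => hB (hL2 h).1
    by_cases h3 : ∃ i ∈ D.Lam, ev G (lZ i) = prl (kc 3) (cg G k0)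
    · have hcS : S4 (D.W G) c (cg G k0) := (hL3 h3).2
      rcases r4 (Or.inl hna) with h | h
      · exact h hcS
      · exact r2 h h3
    · have hnd : ¬ S4 (D.W G) d (cg G k0) := by
        intro h
        refine hB (hMB h fun i hi => ⟨fun h' => hna ⟨i, hi, h'⟩, fun h' => h3 ⟨i, hi, h'⟩⟩)
      have hnc : ¬ S4 (D.W G) c (cg G k0) := fun h => h3 (hM3 hB h)
      exact r3 ⟨hnc, hnd⟩

end SE
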