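import Pool.Agent.H38.SE.TarZ
import Pool.Agent.H68.SF.LBas

/-! # ZZ: the main theorem, from the parts -/

set_option linter.unusedVariables false

open Ordinal Order Set
open scoped ZFSet

namespace SE

open SF

theorem rank_lt_of_mem_LA {A : V} (α : Ordinal.{0}) : ∀ x ∈ LA A α, x.rank < α := by
  induction α using WellFoundedLT.induction with
  | ind α ih =>
    intro x hx
    rcases mem_Lh.1 hx with h | ⟨β, hβ, h⟩
    · exact absurd h (ZFSet.notMem_empty x)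
    · refine lt_of_le_of_lt ?_ hβ
      rw [ZFSet.rank_le_iff]
      intro y hy
      exact ih β hβ y (Def_sub h hy)

theorem pf_ZZ (hBD : T_BD) (hBJ : T_BJ) (hL0 : T_L0) (hLUZ : T_LUZ) (hWZ : T_WZ) (hCOD : T_COD)
    (hZK : T_ZK) (hZN : T_ZN) (hU : T_U) : T_ZZ := by
  refine ⟨hL0, ?_⟩
  intro τ hc hz
  obtain ⟨IL, hIL, hLZ⟩ := hLUZ
  obtain ⟨H, L, hok, hisl⟩ := hLZ τ hc hz
  obtain ⟨T, hF⟩ := hWZ ⟨(· ∈ LA ∅ τ), H, L, fun _ => ∅⟩ (hok _)
  set D : Cx := ⟨(· ∈ LA ∅ τ), H, L, T⟩ with hD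
  have hF' : D.Ful := hF
  obtain ⟨hNL, hHt, hHN, hPR, hmain⟩ := hBJ D hF'.ok
  have hC : Cld D.L D.Lam := by
    intro i hi
    obtain ⟨hiH, hl, hj⟩ := ZFSet.mem_sep.1 hi
    refine ⟨hl.l, fun j hj' => ?_⟩
    have hjH : j ∈ D.H := by
      have h1 : D.Leg j := hj j hj'
      exact h1.h
    exact ZFSet.mem_sep.2 ⟨hjH, hj j hj', fun k hk => hj k (hl.l.tr j hj' hk)⟩
  obtain ⟨hP, hR⟩ := hPR D.Lam hF'.lam
  refine ⟨D.P D.Lam, hP, D.R D.Lam, hR, hBD.2.2.2.2.2.2.2 _ _, ?_⟩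
  intro G hG
  have hG' : D.Gn D.Lam G := hG
  obtain ⟨-, hm⟩ := hmain D.Lam hF'.lam hC
  obtain ⟨⟨hzfc, hsub, hGW, hct, hord⟩, -, -⟩ := hm G hG'
  have hordL : ∀ α : Ordinal.{0}, α.toZFSet ∈ LA ∅ τ ↔ α < τ := by
    intro α
    have ha : (∅ : V).IsTransitive := fun x hx => absurd hx (ZFSet.notMem_empty x)
    constructor
    · intro h
      have h1 := rank_lt_of_mem_LA τ _ h
      rwa [Ordinal.rank_toZFSet] at h1
    · intro h
      exact ord_mem_Lh ha h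
  have hCm : Cmx (D.W G) D.L := hCOD IL hIL (D.W G) τ D.L hzfc
    (fun α => (hord α).trans (hordL α)) hisl hF'.ok.lR
  exact hU (D.W G) hzfc (hZK D hF' G hG' hCm) (hZN D hF' G hG' hCm)

end SE
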