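import Pool.Agent.H9.SE.AllL
import Pool.Agent.H1.SE.UAll
import Pool.Agent.H75.SE.UG
import Pool.Agent.H45.SE.TAll
import Pool.Agent.H12.SF.FK
import Pool.Agent.H1.SE.BG
import Pool.Agent.H1.SE.BI
import Pool.Agent.H1.SE.BM
import Pool.Agent.H14.SE.BA
import Pool.Agent.H14.SE.BBa
import Pool.Agent.H33.SE.SA
import Pool.Agent.H34.SE.BC
import Pool.Agent.H34.SE.BJ
import Pool.Agent.H35.SE.CG
import Pool.Agent.H38.SE.ZB
import Pool.Agent.H38.SE.ZC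
import Pool.Agent.H38.SE.ZH
import Pool.Agent.H38.SE.ZK
import Pool.Agent.H38.SE.ZL
import Pool.Agent.H38.SE.ZN
import Pool.Agent.H38.SE.ZZ
import Pool.Agent.H41.SE.W
import Pool.Agent.H46.SE.ZD
import Pool.Agent.H46.SE.ZI
import Pool.Agent.H47.SE.BS
import Pool.Agent.H51.SE.SD
import Pool.Agent.H51.SE.ZJ
import Pool.Agent.H54.SE.BBb
import Pool.Agent.H54.SE.CC
import Pool.Agent.H68.SE.BL
import Pool.Agent.H68.SE.BO
import Pool.Agent.H73.SE.BD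
import Pool.Agent.H73.SE.BF
import Pool.Agent.H73.SE.BQ
import Pool.Agent.H74.SE.BH
import Pool.Agent.H74.SE.SE
import Pool.Agent.H81.SE.BP
import Pool.Agent.H81.SE.BR
import Pool.Agent.H81.SE.CR
import Pool.Agent.H86.SE.ZE
import Pool.Agent.H88.SE.BE
import Pool.Agent.H88.SE.CA
import Pool.Agent.H88.SE.SC
import Pool.Agent.H89.SE.BBc
import Pool.Agent.H90.SE.CB
import Pool.Agent.H90.SE.CH
import Pool.Agent.H90.SE.SB
import Pool.Agent.H90.SE.ZG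
import Pool.Agent.H90.SE.ZM
import Pool.Agent.H94.SE.BK
import Pool.Agent.H94.SE.BN
import Pool.Agent.H94.SE.ZA
import Pool.Agent.H94.SE.ZF
import Pool.Agent.H94.SE.ZX
import Pool.Agent.H94.SE.ZY

/-!
# MP_eaeaf5_lc: assembly of the theorem
-/

set_option linter.unusedVariables false

open Ordinal Order Set
open scoped ZFSet

namespace SE

namespace All

open SF

theorem aFK : SF.T_FK := SF.H12.fk SF.H68.aFB SF.H68.aFF SF.H68.aFJ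
theorem aU : T_U := U_all aAA aAG CAA.All.aDJ (pf_UG aAA aAF aAG aAH)
theorem aBA : T_BA := SE.pf_BA
theorem aBBa : T_BBa := SE.pf_BBa aAA aAB aAF
theorem aBBb : T_BBb := SE.pf_BBb aAF aAI aBBa
theorem aBBc : T_BBc := SE.pf_BBc aAF aAI aBBa
theorem aBC : T_BC := H34SE.bc aAB aAF
theorem aBD : T_BD := SE.pf_BD aBC
theorem aBG : T_BG := SE.pf_BG aBA aBC
theorem aBH : T_BH := SE.pf_BH aAA aAF aBC aBD aBG
theorem aBR : T_BR := SE.pf_BR aAA aAF aBBa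
theorem aCG : T_CG := SE.pf_CG aAB aAC aAD aAE
theorem aCH : T_CH := SE.pf_CH
theorem aCR : T_CR := SE.pf_CR aBBa
theorem aBE : T_BE := SE.pf_BE aAF aBC aBD aBG
theorem aBF : T_BF := SE.pf_BF aBA aBC aBD aBE
theorem aBI : T_BI := SE.pf_BI aAA aAF aBA aBC aBD aBF aBH
theorem aBJ : T_BJ := H34SE.bj aBBa aBC aBD aBE SF.H68.aFE SF.H68.aFI aFK SF.H68.aFL CAA.All.aFM
theorem aBK : T_BK := SE.pf_BK aAF aAG aBA aBBa aBBb aBC aBD aBE aBI aBJ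
theorem aBL : T_BL := SE.pf_BL aBC aBD aBF aBJ
theorem aBM : T_BM := SE.pf_BM aBA aBBa aBC aBD aBF aBJ CAA.All.aFM
theorem aBN : T_BN := SE.pf_BN aAF aAG aAI aBD aBJ aBK CAA.All.aDS
theorem aBO : T_BO := SE.pf_BO aAF aAG aAH aAI aBA aBBa aBBb aBC aBD aBH aBI aBJ aBK aBN
theorem aBP : T_BP := SE.pf_BP aAF aAG aBA aBBa aBC aBD aBH aBI aBJ aBK aBL aBO
theorem aBQ : T_BQ := SE.pf_BQ aAB aAC aAD aAE aAF aBBa aBC aBE
theorem aBS : T_BS := SE.pf_BS aAB aAC aAD aAF aAG aBA aBC aBD aBE aBJ aBK aBL aBO aBQ aBR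
theorem aCA : T_CA := SE.pf_CA aAB aAC aAF aBC aBJ aCH aCG aCR
theorem aCB : T_CB :=
  SE.pf_CB aAB aAC aAF aAG aBA aBBa aBBb aBC aBD aBE aBJ aBK aBN aBO aCA CAA.All.aDS
theorem aCC : T_CC := SE.pf_CC aAG aBK aCB
theorem aSA : T_SA := SE.pf_SA aBA aBJ aBK aBL aBM aBR
theorem aSB : T_SB := SE.pf_SB aBA aSA
theorem aSC : T_SC := SE.pf_SC aBA aBC aBD aBR aSA
theorem aSD : T_SD := SE.pf_SD aBJ aBK aBP aSA
theorem aSE : T_SE := SE.pf_SE aBA aBC aSA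
theorem aWD : T_WD := SE.pf_WD aAI aBBa aBBb aBD aBJ aBL aBM CAA.All.aDS
theorem aWZ : T_WZ := SE.pf_WZ aAI aBBa aBBb aBD aBJ aBL aBM CAA.All.aDS
theorem aZA : T_ZA := SE.pf_ZA aAG aAH aBA aBBa aBJ aBK aBL aBP aBR aBS
theorem aZB : T_ZB := SE.pf_ZB aAH aBA aBJ aBK aBR aZA
theorem aZC : T_ZC := SE.pf_ZC aAH aAI aBJ aSA aZA aSHO
theorem aZF : T_ZF :=
  SE.pf_ZF aAG aAH aAI aBA aBBa aBBb aBD aBJ aBK aBL aBO aBR aCC aSA aZA aZB CAA.All.aDS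
theorem aZH : T_ZH := SE.pf_ZH aAH aBA aBBa aBJ aBK aBO aSA aZA aZB
theorem aZX : T_ZX := SE.pf_ZX aBBa aBJ
theorem aZY : T_ZY := SE.pf_ZY aBA aBBa aBK aBL aBP
theorem aTPP : T_TP1 ∧ T_TP2 ∧ T_TP3 :=
  T_parts aAB aAF aAG aAH aBA aBBa aBBc aBC aBD aBF aBJ aBK aBL aBM aBO aBR aBS aSA aSE aWD aZX
    aZA
theorem aZD : T_ZD := SE.pf_ZD aBA aBJ aBK aBO aSA aZA aZX aWD aTPP.1 aP3U
theorem aZE : T_ZE := SE.t_ze aAI aAH aBJ aSA aZA aZC aZD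
theorem aZG : T_ZG :=
  SE.pf_ZG aAB aBA aBC aBD aBJ aBK aBL aBN aBO aBR aSA aSB aSC aSD aZX aWD aTPP.2.2
theorem aZI : T_ZI := SE.pf_ZI aBA aBJ aBK aBO aBR aSA aZA aZE aZX aWD aTPP.2.1
theorem aZJ : T_ZJ := SE.pf_ZJ aAH aBJ aBK aBO aWD aZA aZB aZG aZY
theorem aZK : T_ZK :=
  SE.pf_ZK aAH aAI aBA aBBa aBJ aBK aBL aSA aZY aZA aZE aZF aZG aZH aZI aZJ aSUB
theorem aZL : T_ZL := SE.pf_ZL aAG aAH aAI aBA aBBa aBJ aBK aSA aZA aZE aZY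
theorem aZM : T_ZM :=
  SE.pf_ZM aAH aBA aBJ aBK aBL aBN aBO aBR aSA aSB aSE aZA aZB aZE aZX aZY aWD aTPP.2.1
theorem aZN : T_ZN := SE.pf_ZN aAH aAI aBJ aBK aZA aZF aZH aZL aZM aSUB
theorem aZZ : T_ZZ := SE.pf_ZZ aBD aBJ aL0 aLUZ aWZ aCOD aZK aZN aU

end All

end SE
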