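import Pool.Agent.H9.CA.Tool
import Pool.Agent.H68.SF.LT3

/-!
# MP_eaeaf5_lc: definitions (labels, the forcing, states)

Paper proof: /team-store/H38_SE_proof.md. `SF.V` is the type of all sets, `D.N` is the ground model.
-/

set_option linter.unusedVariables false

open Ordinal Order Set
open scoped ZFSet

namespace SE

open SF

/-! ## Finite sets, sequences, reals -/

/-- the hereditarily finite sets -/
noncomputable def hf : V := V_ (ω : Ordinal.{0})

/-- the set of the finite subsets of `x` -/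
noncomputable def Fs (x : V) : V := (ZFSet.powerset x).sep fun y => (y : Set V).Finite

/-- `b` is a sequence of length `n` of elements of `hf` -/
def Sq (n : ℕ) (b : V) : Prop := ZFSet.IsFunc (nS n) hf b

/-- the set of the finite sequences of elements of `hf` -/
noncomputable def sq : V := hf.sep fun b => ∃ n : ℕ, Sq n b

/-- a real: a function from `ω` to `hf` -/
def Rl (x : V) : Prop := ZFSet.IsFunc om hf x

/-- the restriction of `x` to `n` (a natural number) -/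
noncomputable def rs (x n : V) : V := x.sep fun z => fst z ∈ n

/-- the pair of two reals -/
noncomputable def prl (x y : V) : V := resS om fun n => ZFSet.pair (app x n) (app y n)

/-- the constant real with value `e` -/
noncomputable def kc (e : ℕ) : V := resS om fun _ => nS e

/-- the real `x` is in the open set with the code `a` -/
def Opn (a x : V) : Prop := ∃ n ∈ om, ∃ m ∈ om, app a n = rs x m

/-- `Π¹₃` statement in the model `W` with the code `a` about the real `x` -/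
def P3 (W : V → Prop) (a x : V) : Prop :=
  ∀ y1, W y1 → Rl y1 → ∃ y2, W y2 ∧ Rl y2 ∧ ∀ y3, W y3 → Rl y3 →
    Opn a (prl (prl (prl x y1) y2) y3)

/-- `Σ¹₄` statement -/
def S4 (W : V → Prop) (a x : V) : Prop := ∃ v, W v ∧ Rl v ∧ P3 W a (prl x v)

/-- `t` is coded: some real `f` with `f(n) = (t|n, *)` is eventually different from all elements
of `L` -/
def Cod (W : V → Prop) (L t : V) : Prop := ∃ f, W f ∧ Rl f ∧
  (∀ n ∈ om, ∃ j ∈ hf, app f n = ZFSet.pair (rs t n) j) ∧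
  ∀ l ∈ L, ∃ m ∈ om, ∀ n ∈ om, m ⊆ n → app f n ≠ app l n

/-! ## Conditions -/

/-- restriction of a function (or set of pairs) to `S` -/
noncomputable def rst (S p : V) : V := p.sep fun z => fst z ∈ S

/-- the conditions for one coordinate: pairs `(σ, F)` -/
noncomputable def Qs (L : V) : V := ZFSet.prod sq (Fs L)

/-- the order for one coordinate -/
structure Qle (q' q : V) : Prop where
  s : fst q ⊆ fst q'
  f : snd q ⊆ snd q'
  d : ∀ n ∈ dm (fst q'), n ∉ dm (fst q) → ∀ l ∈ snd q, app (fst q') n ≠ app l n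

/-- the order: `q` is stronger than `p` -/
def Le (q p : V) : Prop := ∀ i ∈ dm p, i ∈ dm q ∧ Qle (app q i) (app p i)

/-! ## Labels: tuples `(e, g, s, Y, Z, A, B)` -/

/-- type -/
noncomputable def lE (i : V) : V := fst i
/-- tag -/
noncomputable def lG (i : V) : V := fst (snd i)
/-- support -/
noncomputable def lS (i : V) : V := fst (snd (snd i))
/-- name of the real which is coded -/
noncomputable def lY (i : V) : V := fst (snd (snd (snd i)))
/-- name of the real which is promised -/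
noncomputable def lZ (i : V) : V := fst (snd (snd (snd (snd i))))
/-- name of the first code -/
noncomputable def lA (i : V) : V := fst (snd (snd (snd (snd (snd i)))))
/-- name of the second code -/
noncomputable def lB (i : V) : V := snd (snd (snd (snd (snd (snd i)))))

/-- the label with the given components -/
noncomputable def lab (e g s Y Z A B : V) : V :=
  ZFSet.pair e (ZFSet.pair g (ZFSet.pair s (ZFSet.pair Y (ZFSet.pair Z (ZFSet.pair A B)))))

/-- the forcing notion of a set `ρ` of labels -/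
noncomputable def Pos (L ρ : V) : V := (Fs (ZFSet.prod ρ (Qs L))).sep fun p => Svl p ∧
  ∀ i ∈ dm p, ∀ n ∈ dm (fst (app p i)), ∃ b ∈ sq, ∃ j ∈ hf, dm b = n ∧
    app (fst (app p i)) n = ZFSet.pair b j ∧ ZFSet.pair (rst (lS i) p) b ∈ lY i

/-- its order -/
noncomputable def Odr (L ρ : V) : V :=
  (ZFSet.prod (Pos L ρ) (Pos L ρ)).sep fun z => Le (fst z) (snd z)

/-- `Y` is a full name (for a real) over `s`; `(q, b) ∈ Y` means that `q` forces that `b` is an
initial segment -/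
structure Nam (L s Y : V) : Prop where
  sub : ∀ z ∈ Y, ∃ q ∈ Pos L s, ∃ b ∈ sq, z = ZFSet.pair q b
  mono : ∀ q b, ZFSet.pair q b ∈ Y → ∀ q' ∈ Pos L s, Le q' q → ZFSet.pair q' b ∈ Y
  den : ∀ n ∈ om, ∀ q ∈ Pos L s, ∃ q' ∈ Pos L s, Le q' q ∧ ∃ b, dm b = n ∧ ZFSet.pair q' b ∈ Y
  uni : ∀ q b b', ZFSet.pair q b ∈ Y → ZFSet.pair q b' ∈ Y → dm b = dm b' → b = b'
  ini : ∀ q b, ZFSet.pair q b ∈ Y → ∀ n ∈ dm b, ZFSet.pair q (rs b n) ∈ Y
  ful : ∀ q ∈ Pos L s, ∀ b ∈ sq, (∀ q' ∈ Pos L s, Le q' q →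
    ∃ q'' ∈ Pos L s, Le q'' q' ∧ ZFSet.pair q'' b ∈ Y) → ZFSet.pair q b ∈ Y

/-- `i` is a label with correct names -/
structure Lab (L i : V) : Prop where
  eq : i = lab (lE i) (lG i) (lS i) (lY i) (lZ i) (lA i) (lB i)
  e : lE i = nS 0 ∨ lE i = nS 1 ∨ lE i = nS 2
  /-- the support is closed -/
  tr : ∀ j ∈ lS i, lS j ⊆ lS i
  y : Nam L (lS i) (lY i)
  z : Nam L (lS i) (lZ i)
  a : Nam L (lS i) (lA i)
  b : Nam L (lS i) (lB i)

/-- `ρ` is a closed set of labels -/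
def Cld (L ρ : V) : Prop := ∀ i ∈ ρ, Lab L i ∧ lS i ⊆ ρ

/-! ## Values -/

/-- the value of a full name -/
noncomputable def ev (G Y : V) : V := ⋃₀ (sq.sep fun b => ∃ q ∈ G, ZFSet.pair q b ∈ Y)

/-- the generic real of the label `i` -/
noncomputable def cg (G i : V) : V := ⋃₀ (sq.sep fun b => ∃ p ∈ G, i ∈ dm p ∧ fst (app p i) = b)

/-- restriction of a filter to a closed set of labels -/
noncomputable def gs (G s : V) : V := G.sep fun p => dm p ⊆ s

/-- `x` is promised -/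
def Pro (ρ G x : V) : Prop := ∃ j ∈ ρ, ev G (lZ j) ≠ kc 0 ∧ x = prl (ev G (lZ j)) (cg G j)

/-- the labels in `ρ'` respect the promises of `ρ` -/
def Resp (ρ ρ' G : V) : Prop := ∀ i ∈ ρ', ¬ Pro ρ G (ev G (lY i))

/-- a full name of the generic real of `k` over `s`, `k ∈ s` -/
noncomputable def cn (L s k : V) : V := (ZFSet.prod (Pos L s) sq).sep fun z =>
  snd z = ∅ ∨ (k ∈ dm (fst z) ∧ snd z ⊆ fst (app (fst z) k))

/-! ## Joins and isomorphisms -/

/-- `q` and `p` are compatible -/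
def Cmp (q p : V) : Prop := ∀ i ∈ dm q, i ∈ dm p →
  (fst (app p i) ⊆ fst (app q i) ∧ ∀ n ∈ dm (fst (app q i)), n ∉ dm (fst (app p i)) →
    ∀ l ∈ snd (app p i), app (fst (app q i)) n ≠ app l n) ∨
  (fst (app q i) ⊆ fst (app p i) ∧ ∀ n ∈ dm (fst (app p i)), n ∉ dm (fst (app q i)) →
    ∀ l ∈ snd (app q i), app (fst (app p i)) n ≠ app l n)

/-- the join of two compatible conditions -/
noncomputable def jn (q p : V) : V := resS (dm q ∪ dm p) fun i =>
  ZFSet.pair (fst (app q i) ∪ fst (app p i)) (snd (app q i) ∪ snd (app p i))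

/-- the image of a condition under a map `π` of the labels -/
noncomputable def mv (π q : V) : V := imS q fun z => ZFSet.pair (app π (fst z)) (snd z)

/-- the image of a set of labels -/
noncomputable def im (π s : V) : V := imS s fun i => app π i

/-- `π` is an isomorphism of `ρ` onto `ρ'` below `p` -/
structure Iso (L π ρ ρ' p : V) : Prop where
  fn : ZFSet.IsFunc ρ ρ' π
  inj : ∀ i ∈ ρ, ∀ j ∈ ρ, app π i = app π j → i = j
  onto : ∀ j ∈ ρ', ∃ i ∈ ρ, app π i = j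
  sup : ∀ i ∈ ρ, lS (app π i) = im π (lS i)
  pp : p ∈ Pos L ρ
  ag : ∀ i ∈ ρ, ∀ q ∈ Pos L (lS i), Le q (rst (lS i) p) → ∀ b,
    (ZFSet.pair q b ∈ lY i ↔ ZFSet.pair (mv π q) b ∈ lY (app π i))

/-- the names of the promises agree below `p` -/
def AgZ (L π ρ p : V) : Prop := ∀ i ∈ ρ, ∀ q ∈ Pos L (lS i), Le q (rst (lS i) p) → ∀ b,
  (ZFSet.pair q b ∈ lZ i ↔ ZFSet.pair (mv π q) b ∈ lZ (app π i))

/-- the image of the filter `G` under an isomorphism below `p ∈ G` onto `ρ'` -/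
noncomputable def gp (L π p ρ' G : V) : V :=
  (Pos L ρ').sep fun q' => ∃ q ∈ G, Le q p ∧ Le (mv π q) q'

/-- the constant name over `s` with value `kc e` -/
noncomputable def knm (L s : V) (e : ℕ) : V :=
  (ZFSet.prod (Pos L s) sq).sep fun z => snd z ⊆ kc e

/-- the transported name: the value of `Y` below `p`, and `kc 0` if `mv π p` is not in the
filter -/
noncomputable def trn (L π p s s' Y : V) : V := (ZFSet.prod (Pos L s') sq).sep fun z =>
  ∀ r ∈ Pos L s', Le r (fst z) → ∃ r' ∈ Pos L s', Le r' r ∧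
    ((∃ q ∈ Pos L s, Le q p ∧ r' = mv π q ∧ ZFSet.pair q (snd z) ∈ Y) ∨
      ((∀ q' ∈ Pos L s', ¬ (Le q' r' ∧ Le q' (mv π p))) ∧ snd z ⊆ kc 0))

/-- the inverse map -/
noncomputable def inv (π : V) : V := imS π fun z => ZFSet.pair (snd z) (fst z)

/-! ## The context -/

/-- ground model, the set `H`, the Luzin set, the table -/
structure Cx where
  /-- the ground model -/
  N : V → Prop
  /-- the set in which all labels are -/
  H : V
  /-- the Luzin set -/
  L : V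
  /-- the table: `(i, p) ∈ T k` if `p` forces that `i` obeys the rule of `k` -/
  T : V → V

/-- properties of the context -/
structure Cx.Ok (D : Cx) : Prop where
  zfc : ZFC D.N
  ctb : {x | D.N x}.Countable
  hN : D.N D.H
  zfH : ZFm (· ∈ D.H)
  reg : RegIn D.H D.N
  lH : D.L ∈ D.H
  lR : ∀ l ∈ D.L, Rl l
  lU : ¬ Ctbl D.N D.L
  /-- the Luzin property -/
  lZ : ∀ (k : ℕ) (E : V), D.N E → (∀ s ∈ E, ZFSet.IsFunc (nS k) sq s) →
    (∀ s, ZFSet.IsFunc (nS k) sq s → ∃ t ∈ E, ∀ j < k, app s (nS j) ⊆ app t (nS j)) →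
    ∃ Z, D.N Z ∧ Ctbl D.N Z ∧ ∀ d, ZFSet.IsFunc (nS k) D.L d →
      (∀ i < k, ∀ j < k, i ≠ j → app d (nS i) ≠ app d (nS j)) → (∀ j < k, app d (nS j) ∉ Z) →
      ∃ t ∈ E, ∀ j < k, app t (nS j) ⊆ app d (nS j)

/-- the forcing notion -/
noncomputable abbrev Cx.P (D : Cx) (ρ : V) : V := Pos D.L ρ
/-- its order -/
noncomputable abbrev Cx.R (D : Cx) (ρ : V) : V := Odr D.L ρ
/-- `G` is a generic filter -/
def Cx.Gn (D : Cx) (ρ G : V) : Prop := Gen D.N (Pos D.L ρ) (Odr D.L ρ) G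
/-- the generic extension -/
def Cx.W (D : Cx) (G : V) : V → Prop := Ext D.N G

/-- a state -/
structure Cx.St (D : Cx) (ρ G : V) : Prop where
  h : ρ ∈ D.H
  c : Cld D.L ρ
  g : D.Gn ρ G

/-- `(ρ', G')` is an extension of the state `(ρ, G)` -/
structure Cx.Ex (D : Cx) (ρ G ρ' G' : V) : Prop where
  st : D.St ρ' G'
  sub : ρ ⊆ ρ'
  res : gs G' ρ = G

/-- the `Π¹₃` fact is secured -/
def Cx.Sec (D : Cx) (ρ G a x : V) : Prop :=
  ∀ ρ' G', D.Ex ρ G ρ' G' → Resp ρ ρ' G' → P3 (D.W G') a x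

/-- the `Σ¹₄` fact is secured -/
def Cx.SecS (D : Cx) (ρ G a y : V) : Prop := ∃ v, D.W G v ∧ Rl v ∧ D.Sec ρ G a (prl y v)

/-- the property `X` of generic filters on `ρ` is decided by conditions -/
def Cx.Dec (D : Cx) (ρ : V) (X : V → Prop) : Prop :=
  ∃ O, D.N O ∧ ∀ G, D.Gn ρ G → (X G ↔ ∃ p ∈ G, p ∈ O)

/-- the class `C(s)` -/
structure Cx.Cl (D : Cx) (s ρ G : V) : Prop where
  con : ∀ i ∈ ρ, ¬ Pro ρ G (ev G (lY i))
  rul : ∀ k ∈ s, ∀ i ∈ ρ, k ∈ lS i → ∃ p ∈ G, ZFSet.pair i p ∈ D.T k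

/-- the pair of `Σ¹₄` sets of the label `k` cannot be made non-disjoint -/
def Cx.Unk (D : Cx) (k G : V) : Prop := ¬ ∃ ρ' G' y, D.Ex (lS k) (gs G (lS k)) ρ' G' ∧
  D.Cl (lS k) ρ' G' ∧ D.W G' y ∧ Rl y ∧ D.SecS ρ' G' (ev G' (lA k)) y ∧
  D.SecS ρ' G' (ev G' (lB k)) y

/-- `y` can be put into the first set of `k` -/
def Cx.Side (D : Cx) (k ρ G y : V) : Prop := ∃ ρ' G', D.Ex ρ G ρ' G' ∧ D.Cl (lS k) ρ' G' ∧
  D.SecS ρ' G' (ev G' (lA k)) y

/-- the generic real of `k` can be put into the second set, without promises -/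
def Cx.Beta (D : Cx) (k G : V) : Prop := ∃ ρ' G',
  D.Ex (insert k (lS k)) (gs G (insert k (lS k))) ρ' G' ∧ D.Cl (lS k) ρ' G' ∧
  (∀ i ∈ ρ', ev G' (lZ i) ≠ prl (kc 2) (cg G' k) ∧ ev G' (lZ i) ≠ prl (kc 3) (cg G' k)) ∧
  D.SecS ρ' G' (ev G' (lB k)) (cg G' k)

/-- the label `i` obeys the rule of `k`; `G` is a generic filter on the forcing of `lS i` -/
structure Cx.Ob (D : Cx) (k i G : V) : Prop where
  r0 : lE k = nS 1 → D.Unk k G → ∀ y, D.W G y → Rl y →
    ev G (lZ i) = prl (kc 0) (prl (cg G k) y) → D.Side k (lS i) G y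
  r1 : lE k = nS 1 → D.Unk k G → ∀ y, D.W G y → Rl y →
    ev G (lZ i) = prl (kc 1) (prl (cg G k) y) → ¬ D.Side k (lS i) G y
  r2 : lE k = nS 2 → ev G (lZ i) = prl (kc 2) (cg G k) →
    D.Beta k G ∧ D.SecS (lS i) G (ev G (lB k)) (cg G k)
  r3 : lE k = nS 2 → ev G (lZ i) = prl (kc 3) (cg G k) →
    ¬ D.Beta k G ∧ D.SecS (lS i) G (ev G (lA k)) (cg G k)

/-- the table is correct -/
structure Cx.Tab (D : Cx) : Prop where
  tN : ∀ s ∈ D.H, D.N (resS s D.T)
  tp : ∀ k i p, ZFSet.pair i p ∈ D.T k → p ∈ Pos D.L (lS i)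
  ob : ∀ k i G, i ∈ D.H → Lab D.L i → Cld D.L (lS i) → k ∈ lS i → D.Gn (lS i) G →
    ((∃ p ∈ G, ZFSet.pair i p ∈ D.T k) ↔ D.Ob k i G)

/-- the label is legal -/
structure Cx.Leg (D : Cx) (i : V) : Prop where
  h : i ∈ D.H
  l : Lab D.L i
  c : Cld D.L (lS i)
  y : ∀ G, D.Gn (lS i) G → ¬ Pro (lS i) G (ev G (lY i))
  o : ∀ G, D.Gn (lS i) G → ∀ k ∈ lS i, D.Ob k i G

/-- the set of the hereditarily legal labels in `H` -/
noncomputable def Cx.Lam (D : Cx) : V := D.H.sep fun i => D.Leg i ∧ ∀ j ∈ lS i, D.Leg j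

end SE
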