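import Pool.Agent.H38.SE.TarA

/-! # Part B: labels, conditions, names. Targets -/

set_option linter.unusedVariables false

open Ordinal Order Set
open scoped ZFSet

namespace SE

open SF

/-- `p` is a finite function -/
def FF (p : V) : Prop := (p : Set V).Finite ∧ Svl p ∧ ∀ z ∈ p, IsPr z

/-- the set of labels `S` is closed (names not checked) -/
def Tr (S : V) : Prop := ∀ i ∈ S, lS i ⊆ S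

/-- the coordinate `i` of `p` is correct -/
structure Co (L p i : V) : Prop where
  eq : app p i = ZFSet.pair (fst (app p i)) (snd (app p i))
  s : fst (app p i) ∈ sq
  f : snd (app p i) ∈ Fs L
  v : ∀ n ∈ dm (fst (app p i)), ∃ b ∈ sq, ∃ j ∈ hf, dm b = n ∧
    app (fst (app p i)) n = ZFSet.pair b j ∧ ZFSet.pair (rst (lS i) p) b ∈ lY i

/-- change the value at `i` to `x` -/
noncomputable def upd (p i x : V) : V :=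
  open Classical in resS (insert i (dm p)) fun k => if k = i then x else app p k

/-- BA: labels -/
def T_BA : Prop :=
  (∀ e g s Y Z A B, lE (lab e g s Y Z A B) = e ∧ lG (lab e g s Y Z A B) = g ∧
    lS (lab e g s Y Z A B) = s ∧ lY (lab e g s Y Z A B) = Y ∧ lZ (lab e g s Y Z A B) = Z ∧
    lA (lab e g s Y Z A B) = A ∧ lB (lab e g s Y Z A B) = B) ∧
  (∀ L i, Lab L i → (lG i).rank < i.rank ∧ (lS i).rank < i.rank ∧ (lY i).rank < i.rank ∧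
    (lZ i).rank < i.rank ∧ (∀ j ∈ lS i, j.rank < i.rank) ∧ i ∉ lS i ∧ ∀ j ∈ lS i, i ∉ lS j) ∧
  (∀ L i j, Lab L i → Lab L j → lE i = lE j → lG i = lG j → lS i = lS j → lY i = lY j →
    lZ i = lZ j → lA i = lA j → lB i = lB j → i = j) ∧
  (∀ L, Cld L ∅) ∧ (∀ L ρ ρ', Cld L ρ → Cld L ρ' → Cld L (ρ ∪ ρ') ∧ Cld L (ρ ∩ ρ')) ∧
  (∀ L S, (∀ ρ ∈ S, Cld L ρ) → Cld L (⋃₀ S : ZFSet)) ∧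
  ∀ L ρ, Cld L ρ → Tr ρ ∧ (∀ i ∈ ρ, Lab L i ∧ lS i ⊆ ρ ∧ Cld L (lS i) ∧
    Cld L (insert i (lS i)) ∧ insert i (lS i) ⊆ ρ) ∧ ∀ s, s ⊆ ρ → Tr s → Cld L s

/-- BBa: definability, first part -/
def T_BBa : Prop :=
  Tm ZFm (fun _ v => rst (v 0) (v 1)) ∧ Tm ZFm (fun _ v => Qs (v 0)) ∧
  Tm ZFm (fun _ v => lE (v 0)) ∧ Tm ZFm (fun _ v => lG (v 0)) ∧ Tm ZFm (fun _ v => lS (v 0)) ∧
  Tm ZFm (fun _ v => lY (v 0)) ∧ Tm ZFm (fun _ v => lZ (v 0)) ∧ Tm ZFm (fun _ v => lA (v 0)) ∧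
  Tm ZFm (fun _ v => lB (v 0)) ∧
  Tm ZFm (fun _ v => lab (v 0) (v 1) (v 2) (v 3) (v 4) (v 5) (v 6)) ∧
  Dfb ZFm (fun _ v => Qle (v 0) (v 1)) ∧ Dfb ZFm (fun _ v => Le (v 0) (v 1)) ∧
  Tm ZFm (fun _ v => Pos (v 0) (v 1)) ∧ Tm ZFm (fun _ v => Odr (v 0) (v 1)) ∧
  Tm ZFm (fun _ v => upd (v 0) (v 1) (v 2))

/-- BBb: definability, second part -/
def T_BBb : Prop :=
  Dfb ZFm (fun _ v => Nam (v 0) (v 1) (v 2)) ∧ Dfb ZFm (fun _ v => Lab (v 0) (v 1)) ∧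
  Dfb ZFm (fun _ v => Cld (v 0) (v 1)) ∧ Dfb ZFm (fun _ v => Tr (v 0)) ∧
  Tm ZFm (fun _ v => ev (v 0) (v 1)) ∧ Tm ZFm (fun _ v => cg (v 0) (v 1)) ∧
  Tm ZFm (fun _ v => gs (v 0) (v 1)) ∧ Dfb ZFm (fun _ v => Pro (v 0) (v 1) (v 2)) ∧
  Dfb ZFm (fun _ v => Resp (v 0) (v 1) (v 2)) ∧ Tm ZFm (fun _ v => cn (v 0) (v 1) (v 2))

/-- BBc: definability, third part -/
def T_BBc : Prop :=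
  Dfb ZFm (fun _ v => Cmp (v 0) (v 1)) ∧ Tm ZFm (fun _ v => jn (v 0) (v 1)) ∧
  Tm ZFm (fun _ v => mv (v 0) (v 1)) ∧ Tm ZFm (fun _ v => im (v 0) (v 1)) ∧
  Dfb ZFm (fun _ v => Iso (v 0) (v 1) (v 2) (v 3) (v 4)) ∧
  Dfb ZFm (fun _ v => AgZ (v 0) (v 1) (v 2) (v 3)) ∧
  Tm ZFm (fun _ v => gp (v 0) (v 1) (v 2) (v 3) (v 4)) ∧
  (∀ e : ℕ, Tm ZFm (fun _ v => knm (v 0) (v 1) e)) ∧
  Tm ZFm (fun _ v => trn (v 0) (v 1) (v 2) (v 3) (v 4) (v 5)) ∧ Tm ZFm (fun _ v => inv (v 0))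

/-- BC: the structure of conditions -/
def T_BC : Prop :=
  (∀ p, FF p → p = resS (dm p) (app p) ∧ (dm p : Set V).Finite ∧
    (∀ i ∈ dm p, ZFSet.pair i (app p i) ∈ p) ∧ ∀ z ∈ p, ∃ i ∈ dm p, z = ZFSet.pair i (app p i)) ∧
  (∀ (a : V) (f : V → V), (a : Set V).Finite → FF (resS a f)) ∧
  (∀ p q, FF p → FF q → dm p = dm q → (∀ i ∈ dm p, app p i = app q i) → p = q) ∧
  (∀ L ρ p, p ∈ Pos L ρ ↔ FF p ∧ dm p ⊆ ρ ∧ ∀ i ∈ dm p, Co L p i) ∧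
  (∀ S p, FF p → FF (rst S p) ∧ (∀ i, i ∈ dm (rst S p) ↔ i ∈ dm p ∧ i ∈ S) ∧
    (∀ i ∈ S, app (rst S p) i = app p i) ∧ (dm p ⊆ S → rst S p = p)) ∧
  (∀ S T p, rst S (rst T p) = rst (S ∩ T) p) ∧ (∀ S T p, S ⊆ T → rst S (rst T p) = rst S p) ∧
  (∀ p i, i ∉ dm p → app p i = ∅) ∧ fst ∅ = ∅ ∧ snd ∅ = ∅ ∧
  ∀ p i x, FF p → FF (upd p i x) ∧ dm (upd p i x) = insert i (dm p) ∧ app (upd p i x) i = x ∧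
    (∀ k, k ≠ i → app (upd p i x) k = app p k) ∧ ∀ S, i ∉ S → rst S (upd p i x) = rst S p

/-- BD: restriction and order -/
def T_BD : Prop :=
  (∀ L ρ, ∅ ∈ Pos L ρ) ∧ (∀ L ρ ρ' p, p ∈ Pos L ρ → dm p ⊆ ρ' → p ∈ Pos L ρ') ∧
  (∀ L ρ S p, p ∈ Pos L ρ → (∀ i ∈ S, i ∈ ρ → lS i ⊆ S) →
    rst S p ∈ Pos L S ∧ rst S p ∈ Pos L ρ ∧ Le p (rst S p)) ∧
  (∀ L ρ p, p ∈ Pos L ρ → Le p p ∧ Le p ∅) ∧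
  (∀ L ρ p q r, p ∈ Pos L ρ → q ∈ Pos L ρ → r ∈ Pos L ρ → Le r q → Le q p → Le r p) ∧
  (∀ S p q, FF p → FF q → Le q p → Le (rst S q) (rst S p)) ∧
  (∀ L ρ p q, ZFSet.pair q p ∈ Odr L ρ ↔ q ∈ Pos L ρ ∧ p ∈ Pos L ρ ∧ Le q p) ∧
  ∀ L ρ, IsPo (Pos L ρ) (Odr L ρ)

/-- BG: a function all of whose values are decided by weaker conditions is a condition -/
def T_BG : Prop := ∀ L ρ r, Cld L ρ → FF r → dm r ⊆ ρ →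
  (∀ i ∈ dm r, app r i = ZFSet.pair (fst (app r i)) (snd (app r i)) ∧ fst (app r i) ∈ sq ∧
    snd (app r i) ∈ Fs L) →
  (∀ i ∈ dm r, ∀ n ∈ dm (fst (app r i)), ∃ b ∈ sq, ∃ j ∈ hf, ∃ q, dm b = n ∧
    app (fst (app r i)) n = ZFSet.pair b j ∧ ZFSet.pair q b ∈ lY i ∧ Le (rst (lS i) r) q) →
  r ∈ Pos L ρ

/-- BE: joins -/
def T_BE : Prop := ∀ L ρ p q, Cld L ρ → p ∈ Pos L ρ → q ∈ Pos L ρ →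
  (Cmp q p → jn q p ∈ Pos L ρ ∧ Le (jn q p) q ∧ Le (jn q p) p ∧ dm (jn q p) = dm q ∪ dm p) ∧
  (∀ r ∈ Pos L ρ, Le r q → Le r p → Cmp q p ∧ Le r (jn q p)) ∧
  ((∀ i ∈ dm q, i ∈ dm p → fst (app q i) = fst (app p i)) → Cmp q p)

/-- BF: extension of a restriction; amalgamation -/
def T_BF : Prop :=
  (∀ L ρ S p q, Cld L ρ → S ⊆ ρ → Tr S → p ∈ Pos L ρ → q ∈ Pos L S → Le q (rst S p) →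
    Cmp q p ∧ jn q p ∈ Pos L ρ ∧ Le (jn q p) q ∧ Le (jn q p) p ∧ rst S (jn q p) = q ∧
    dm (jn q p) = dm q ∪ dm p ∧ ∀ i ∈ dm p, i ∉ S → app (jn q p) i = app p i) ∧
  ∀ L ρ1 ρ2 p q, Cld L ρ1 → Cld L ρ2 → p ∈ Pos L ρ1 → q ∈ Pos L ρ2 →
    rst (ρ1 ∩ ρ2) p = rst (ρ1 ∩ ρ2) q →
    jn q p ∈ Pos L (ρ1 ∪ ρ2) ∧ Le (jn q p) q ∧ Le (jn q p) p ∧ rst ρ1 (jn q p) = p ∧
    rst ρ2 (jn q p) = q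

/-- BH: one coordinate extensions -/
def T_BH : Prop :=
  (∀ L ρ p i, Cld L ρ → p ∈ Pos L ρ → i ∈ ρ → i ∉ dm p →
    upd p i (ZFSet.pair ∅ ∅) ∈ Pos L ρ ∧ Le (upd p i (ZFSet.pair ∅ ∅)) p) ∧
  (∀ L ρ p i F, Cld L ρ → p ∈ Pos L ρ → i ∈ dm p → F ∈ Fs L →
    upd p i (ZFSet.pair (fst (app p i)) (snd (app p i) ∪ F)) ∈ Pos L ρ ∧
    Le (upd p i (ZFSet.pair (fst (app p i)) (snd (app p i) ∪ F))) p) ∧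
  ∀ L ρ p i (n : ℕ) b j, Cld L ρ → p ∈ Pos L ρ → i ∈ dm p → dm (fst (app p i)) = nS n →
    b ∈ sq → dm b = nS n → ZFSet.pair (rst (lS i) p) b ∈ lY i → j ∈ hf →
    (∀ l ∈ snd (app p i), ZFSet.pair b j ≠ app l (nS n)) →
    upd p i (ZFSet.pair (insert (ZFSet.pair (nS n) (ZFSet.pair b j)) (fst (app p i)))
      (snd (app p i))) ∈ Pos L ρ ∧
    Le (upd p i (ZFSet.pair (insert (ZFSet.pair (nS n) (ZFSet.pair b j)) (fst (app p i)))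
      (snd (app p i)))) p

/-- BI: density -/
def T_BI : Prop := ∀ L ρ, Cld L ρ →
  (∀ s Y p (n : ℕ), s ⊆ ρ → Tr s → Nam L s Y → p ∈ Pos L ρ → ∃ q ∈ Pos L ρ, Le q p ∧
    (∃ b ∈ sq, dm b = nS n ∧ ZFSet.pair (rst s q) b ∈ Y) ∧
    ∀ i, i ∉ s → (i ∈ dm q ↔ i ∈ dm p) ∧ app q i = app p i) ∧
  (∀ p i u (n : ℕ), p ∈ Pos L ρ → i ∈ dm p → dm (fst (app p i)) = nS n → ∃ q ∈ Pos L ρ,
    Le q p ∧ dm (fst (app q i)) = nS (n + 1) ∧ app (fst (app q i)) (nS n) ≠ u ∧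
    ∀ k, k ∉ insert i (lS i) → (k ∈ dm q ↔ k ∈ dm p) ∧ app q k = app p k) ∧
  (∀ p (A : V) (n : ℕ), p ∈ Pos L ρ → (A : Set V).Finite → A ⊆ ρ → ∃ q ∈ Pos L ρ, Le q p ∧
    ∀ i ∈ A, i ∈ dm q ∧ nS n ∈ dm (fst (app q i))) ∧
  ∀ p i l, p ∈ Pos L ρ → i ∈ ρ → l ∈ L → ∃ q ∈ Pos L ρ, Le q p ∧ i ∈ dm q ∧ l ∈ snd (app q i)

/-- BJ: the forcing notions and their generic extensions -/
def T_BJ : Prop := ∀ D : Cx, D.Ok →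
  D.N D.L ∧ D.H.IsTransitive ∧ (∀ x ∈ D.H, D.N x) ∧ (∀ ρ, D.N ρ → D.N (D.P ρ) ∧ D.N (D.R ρ)) ∧
  ∀ ρ, D.N ρ → Cld D.L ρ →
    (∀ p ∈ D.P ρ, ∃ G, D.Gn ρ G ∧ p ∈ G) ∧
    ∀ G, D.Gn ρ G →
      (ZFC (D.W G) ∧ (∀ x, D.N x → D.W G x) ∧ D.W G G ∧ {x | D.W G x}.Countable ∧
        ∀ α : Ordinal.{0}, D.W G α.toZFSet ↔ D.N α.toZFSet) ∧
      (G ⊆ D.P ρ ∧ ∅ ∈ G ∧ (∀ p ∈ G, ∀ q ∈ D.P ρ, Le p q → q ∈ G) ∧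
        (∀ p ∈ G, ∀ q ∈ G, Cmp q p ∧ jn q p ∈ G ∧ Le (jn q p) q ∧ Le (jn q p) p) ∧
        ∀ S, Tr S → ∀ p ∈ G, rst S p ∈ G) ∧
      ∀ X p, D.N X → p ∈ G → (∀ q ∈ D.P ρ, Le q p → ∃ r ∈ X, r ∈ D.P ρ ∧ Le r q) →
        ∃ r ∈ G, r ∈ X ∧ Le r p

/-- BK: values of names, generic reals -/
def T_BK : Prop := ∀ D : Cx, D.Ok → ∀ ρ G, D.N ρ → Cld D.L ρ → D.Gn ρ G →
  (∀ s Y, D.N s → s ⊆ ρ → Tr s → D.N Y → Nam D.L s Y → Rl (ev G Y) ∧ D.W G (ev G Y) ∧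
    (∀ b ∈ sq, (b ⊆ ev G Y ↔ ∃ q ∈ G, ZFSet.pair q b ∈ Y)) ∧
    (∀ q ∈ G, ∀ b, ZFSet.pair (rst s q) b ∈ Y → b ⊆ ev G Y) ∧
    (∀ n : ℕ, ∃ q ∈ G, ZFSet.pair q (rs (ev G Y) (nS n)) ∈ Y) ∧
    ∀ s', s ⊆ s' → ev (gs G s') Y = ev G Y) ∧
  ∀ i ∈ ρ, Rl (cg G i) ∧ D.W G (cg G i) ∧ (∀ s, Tr s → i ∈ s → cg (gs G s) i = cg G i) ∧
    (∀ p ∈ G, i ∈ dm p → fst (app p i) ⊆ cg G i ∧
      ∀ n ∈ om, n ∉ dm (fst (app p i)) → ∀ l ∈ snd (app p i), app (cg G i) n ≠ app l n) ∧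
    (∀ n : ℕ, ∃ p ∈ G, i ∈ dm p ∧ nS n ∈ dm (fst (app p i)) ∧
      app (cg G i) (nS n) = app (fst (app p i)) (nS n)) ∧
    (∀ n ∈ om, ∃ j ∈ hf, app (cg G i) n = ZFSet.pair (rs (ev G (lY i)) n) j) ∧
    ∀ l ∈ D.L, ∃ m ∈ om, ∀ n ∈ om, m ⊆ n → app (cg G i) n ≠ app l n

/-- BL: restriction of generic filters -/
def T_BL : Prop := ∀ D : Cx, D.Ok → ∀ ρ G, D.N ρ → Cld D.L ρ → D.Gn ρ G →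
  gs G ρ = G ∧ ∀ s, D.N s → s ⊆ ρ → Tr s → D.Gn s (gs G s) ∧ gs G s ⊆ G ∧
    (∀ x, D.W (gs G s) x → D.W G x) ∧ (∀ p, p ∈ gs G s ↔ p ∈ G ∧ dm p ⊆ s) ∧
    (∀ p ∈ G, rst s p ∈ gs G s) ∧ (∀ p ∈ gs G s, ∃ q ∈ G, p = rst s q) ∧
    ∀ s', s' ⊆ s → gs (gs G s) s' = gs G s'

/-- BM: extension of generic filters -/
def T_BM : Prop := ∀ D : Cx, D.Ok → ∀ ρ0 ρ G0 p, D.N ρ0 → D.N ρ → Cld D.L ρ → ρ0 ⊆ ρ → Tr ρ0 →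
  D.Gn ρ0 G0 → p ∈ D.P ρ → rst ρ0 p ∈ G0 → ∃ G, D.Gn ρ G ∧ p ∈ G ∧ gs G ρ0 = G0

/-- BN: full names of definable reals -/
def T_BN : Prop := ∀ D : Cx, D.Ok → ∀ ρ, D.N ρ → Cld D.L ρ →
  (∀ Y, D.N Y → Nam D.L ρ Y → ∀ q ∈ D.P ρ, ∀ b ∈ sq,
    (ZFSet.pair q b ∈ Y ↔ ∀ G, D.Gn ρ G → q ∈ G → b ⊆ ev G Y)) ∧
  ∀ R : (V → Prop) → (ℕ → V) → Prop, Dfb ZFm R → ∀ v, In D.N v →
    (∀ G, D.Gn ρ G → ∃ x, D.W G x ∧ Rl x ∧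
      ∀ y, D.W G y → Rl y → (R (D.W G) (cons y (cons G v)) ↔ y = x)) →
    ∃ Y, D.N Y ∧ Nam D.L ρ Y ∧ ∀ G, D.Gn ρ G → R (D.W G) (cons (ev G Y) (cons G v))

/-- BO: examples of full names -/
def T_BO : Prop := ∀ D : Cx, D.Ok → ∀ ρ, D.N ρ → Cld D.L ρ →
  (∀ τ, D.N τ → ∃ Y, D.N Y ∧ Nam D.L ρ Y ∧ ∀ G, D.Gn ρ G →
    (Rl (val G τ) → ev G Y = val G τ) ∧ (¬ Rl (val G τ) → ev G Y = kc 0)) ∧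
  (∀ Y1 Y2 O, D.N Y1 → D.N Y2 → D.N O → Nam D.L ρ Y1 → Nam D.L ρ Y2 →
    ∃ Y, D.N Y ∧ Nam D.L ρ Y ∧ ∀ G, D.Gn ρ G → ((∃ p ∈ G, p ∈ O) → ev G Y = ev G Y1) ∧
      ((¬ ∃ p ∈ G, p ∈ O) → ev G Y = ev G Y2)) ∧
  (∀ Y1 Y2, D.N Y1 → D.N Y2 → Nam D.L ρ Y1 → Nam D.L ρ Y2 →
    ∃ Y, D.N Y ∧ Nam D.L ρ Y ∧ ∀ G, D.Gn ρ G → ev G Y = prl (ev G Y1) (ev G Y2)) ∧
  (∀ e : ℕ, D.N (knm D.L ρ e) ∧ Nam D.L ρ (knm D.L ρ e) ∧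
    ∀ G, D.Gn ρ G → ev G (knm D.L ρ e) = kc e) ∧
  (∀ k ∈ ρ, D.N (cn D.L ρ k) ∧ Nam D.L ρ (cn D.L ρ k) ∧
    ∀ G, D.Gn ρ G → ev G (cn D.L ρ k) = cg G k) ∧
  ∀ s Y0, D.N s → s ⊆ ρ → Tr s → D.N Y0 → Nam D.L s Y0 →
    ∃ Y, D.N Y ∧ Nam D.L ρ Y ∧ ∀ G, D.Gn ρ G → ev G Y = ev G Y0

/-- BP: the generic real of `j` is new for each closed set which does not contain `j` -/
def T_BP : Prop := ∀ D : Cx, D.Ok → ∀ ρ G s j, D.N ρ → Cld D.L ρ → D.Gn ρ G → D.N s → s ⊆ ρ →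
  Tr s → j ∈ ρ → j ∉ s → ¬ D.W (gs G s) (cg G j)

/-- BQ: the countable chain condition (for countably many sets of conditions at once) -/
def T_BQ : Prop := ∀ D : Cx, D.Ok → ∀ ρ, D.N ρ → Cld D.L ρ → ∀ F, D.N F →
  (∀ n ∈ om, app F n ⊆ D.P ρ) →
  ∃ X0, Ctbl D.N X0 ∧ X0 ⊆ D.P ρ ∧ ∀ n ∈ om, ∀ p ∈ app F n, ∃ q ∈ X0, q ∈ app F n ∧ Cmp q p

/-- BR: the set `H` -/
def T_BR : Prop := ∀ D : Cx, D.Ok →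
  (∀ x y, D.N x → y ∈ D.H → x ⊆ y → x ∈ D.H) ∧
  (∀ f x, D.N f → Svl f → dm f = x → x ∈ D.H → rg f ⊆ D.H →
    rg f ∈ D.H ∧ f ∩ ZFSet.prod x (rg f) ∈ D.H) ∧
  (∀ x, Ctbl D.N x → x ⊆ D.H → x ∈ D.H ∧ (⋃₀ x : ZFSet) ∈ D.H) ∧
  (∀ x ∈ D.H, ∀ y ∈ D.H, ZFSet.pair x y ∈ D.H ∧ x ∪ y ∈ D.H ∧ insert x y ∈ D.H) ∧
  (∀ ρ ∈ D.H, D.P ρ ∈ D.H ∧ D.R ρ ∈ D.H ∧ (∀ p ∈ D.P ρ, p ∈ D.H) ∧ (∀ i ∈ ρ, lS i ∈ D.H) ∧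
    ∀ Y, D.N Y → Nam D.L ρ Y → Y ∈ D.H) ∧
  (∀ e g s Y Z A B, e ∈ D.H → g ∈ D.H → s ∈ D.H → Y ∈ D.H → Z ∈ D.H → A ∈ D.H → B ∈ D.H →
    lab e g s Y Z A B ∈ D.H) ∧ sq ∈ D.H ∧ hf ∈ D.H ∧ om ∈ D.H ∧ ∀ n : ℕ, nS n ∈ D.H

/-- BS: reals of the extension live on supports in `H` -/
def T_BS : Prop := ∀ D : Cx, D.Ok → ∀ ρ G, D.N ρ → Cld D.L ρ → ρ ⊆ D.H → D.Gn ρ G →
  (∀ y, D.W G y → Rl y → ∃ s ∈ D.H, s ⊆ ρ ∧ Cld D.L s ∧ D.W (gs G s) y) ∧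
  ∀ p ∈ D.P ρ, ∃ s ∈ D.H, s ⊆ ρ ∧ Cld D.L s ∧ dm p ⊆ s

end SE
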