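import Pool.Agent.H38.SE.TarB

/-! # Part C: the coding theorem. Targets -/

set_option linter.unusedVariables false

open Ordinal Order Set
open scoped ZFSet

namespace SE

open SF

/-- CH: choice for definable relations -/
def T_CH : Prop := ∀ R : (V → Prop) → (ℕ → V) → Prop, Dfb ZFm R → ∀ M, ZFCm M → ∀ v, In M v →
  ∀ a, M a → (∀ x ∈ a, ∃ y, M y ∧ R M (cons x (cons y v))) →
  ∃ f, M f ∧ Svl f ∧ dm f = a ∧ ∀ x ∈ a, R M (cons x (cons (app f x) v))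

/-- CG: countable closure for countable-valued functions on a set of types with finite supports -/
def T_CG : Prop := ∀ M, ZFCm M → ∀ X U g h, M X → M U → M g → M h →
  (∀ T ∈ U, app g T ∈ Fs X) → (∀ T ∈ U, Ctbl M (app h T)) →
  (∀ e ∈ Fs X, Ctbl M (U.sep fun T => app g T ⊆ e)) →
  ∃ Y, Ctbl M Y ∧ Y ⊆ X ∧ ∀ T ∈ U, app g T ⊆ Y → app h T ∩ X ⊆ Y

/-- `(p, d)` is a realisation, fresh for `Z`, over `s` of the type `(τ, k, j0, m)`; the values of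
`τ` are triples `(σ, (F, T))` -/
structure Rz (L ρ q0 B τ k j0 m s Z p d : V) : Prop where
  mp : p ∈ Pos L ρ
  lq : Le p q0
  da : dm τ ⊆ dm p
  fr : ∀ i ∈ dm p, i ∈ Z → i ∈ dm τ
  si : ∀ i ∈ dm τ, fst (app p i) = fst (app τ i)
  fi : ∀ i ∈ dm τ, ∀ l, l ∈ snd (app p i) ↔
    l ∈ fst (snd (app τ i)) ∨ ∃ j ∈ snd (snd (app τ i)), l = app d j
  fd : ZFSet.IsFunc k L d
  inj : ∀ i ∈ k, ∀ j ∈ k, app d i = app d j → i = j
  ex : ∀ j ∈ k, app s j ⊆ app d j ∧ app d j ∉ Z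
  mb : ZFSet.pair p (ZFSet.pair (app d j0) m) ∈ B

/-- CR: the relation is definable -/
def T_CR : Prop := Dfb ZFm (fun _ v => Rz (v 0) (v 1) (v 2) (v 3) (v 4) (v 5) (v 6) (v 7) (v 8)
  (v 9) (v 10) (v 11))

/-- CA: reflection of types -/
def T_CA : Prop := ∀ D : Cx, D.Ok → ∀ ρ q0 B, D.N ρ → Cld D.L ρ → q0 ∈ D.P ρ → D.N B →
  (∀ l ∈ D.L, ∃ p ∈ D.P ρ, Le p q0 ∧ ∃ m ∈ om, ZFSet.pair p (ZFSet.pair l m) ∈ B) →
  ∃ (τ m s0 j0 : V) (k : ℕ), FF τ ∧ dm τ ⊆ ρ ∧ m ∈ om ∧ j0 ∈ nS k ∧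
    (∀ i ∈ dm τ, snd (snd (app τ i)) ⊆ nS k) ∧ ZFSet.IsFunc (nS k) sq s0 ∧
    ∀ s, ZFSet.IsFunc (nS k) sq s → (∀ j ∈ nS k, app s0 j ⊆ app s j) →
      ∀ Z, Ctbl D.N Z → ∃ p d, Rz D.L ρ q0 B τ (nS k) j0 m s Z p d

/-- CB: each real of the extension which is eventually different from all elements of the Luzin
set agrees infinitely often with the generic real of a label -/
def T_CB : Prop := ∀ D : Cx, D.Ok → ∀ ρ G, D.N ρ → Cld D.L ρ → D.Gn ρ G → ∀ f, D.W G f → Rl f →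
  (∀ l ∈ D.L, ∃ m ∈ om, ∀ n ∈ om, m ⊆ n → app f n ≠ app l n) →
  ∃ i ∈ ρ, ∀ m : ℕ, ∃ n : ℕ, m ≤ n ∧ app f (nS n) = app (cg G i) (nS n)

/-- CC: the coded reals -/
def T_CC : Prop := ∀ D : Cx, D.Ok → ∀ ρ G, D.N ρ → Cld D.L ρ → D.Gn ρ G → ∀ t, D.W G t → Rl t →
  (Cod (D.W G) D.L t ↔ ∃ i ∈ ρ, t = ev G (lY i))

end SE
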