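import Pool.Agent.H38.SE.TarB

/-! # Part S: states. Targets -/

set_option linter.unusedVariables false

open Ordinal Order Set
open scoped ZFSet

namespace SE

open SF

/-- SA: states and extensions -/
def T_SA : Prop := ∀ D : Cx, D.Ok → ∀ ρ G, D.St ρ G →
  D.N ρ ∧ D.Ex ρ G ρ G ∧
  (∀ s, D.N s → s ⊆ ρ → Tr s → D.St s (gs G s) ∧ D.Ex s (gs G s) ρ G) ∧
  (∀ ρ' ∈ D.H, Cld D.L ρ' → ρ ⊆ ρ' → ∀ p ∈ D.P ρ', rst ρ p ∈ G →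
    ∃ G', D.Ex ρ G ρ' G' ∧ p ∈ G') ∧
  ∀ ρ' G', D.Ex ρ G ρ' G' →
    D.St ρ' G' ∧ G ⊆ G' ∧ (∀ x, D.W G x → D.W G' x) ∧
    (∀ ρ'' G'', D.Ex ρ' G' ρ'' G'' → D.Ex ρ G ρ'' G'') ∧
    (∀ s Y, D.N s → s ⊆ ρ → Tr s → D.N Y → Nam D.L s Y → ev G' Y = ev G Y) ∧
    (∀ i ∈ ρ, cg G' i = cg G i ∧ ev G' (lY i) = ev G (lY i) ∧ ev G' (lZ i) = ev G (lZ i) ∧
      ev G' (lA i) = ev G (lA i) ∧ ev G' (lB i) = ev G (lB i)) ∧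
    (∀ s, s ⊆ ρ → Tr s → gs G' s = gs G s ∧ ∀ x, Pro s G' x ↔ Pro s G x) ∧
    ∀ s, D.N s → ρ ⊆ s → s ⊆ ρ' → Tr s → D.Ex ρ G s (gs G' s) ∧ D.Ex s (gs G' s) ρ' G'

/-- SB: secured facts persist -/
def T_SB : Prop := ∀ D : Cx, D.Ok → ∀ ρ G ρ' G', D.Ex ρ G ρ' G' → D.St ρ G →
  (∀ a x, D.Sec ρ G a x → D.Sec ρ' G' a x) ∧ ∀ a y, D.SecS ρ G a y → D.SecS ρ' G' a y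

/-- SC: amalgamation of states -/
def T_SC : Prop := ∀ D : Cx, D.Ok → ∀ ρ G ρ1 G1 ρ2 p2, D.St ρ G → D.Ex ρ G ρ1 G1 → ρ2 ∈ D.H →
  Cld D.L ρ2 → ρ ⊆ ρ2 → ρ1 ∩ ρ2 ⊆ ρ → p2 ∈ D.P ρ2 → rst ρ p2 ∈ G →
  ∃ G2, D.Ex ρ1 G1 (ρ1 ∪ ρ2) G2 ∧ p2 ∈ G2 ∧ D.Ex ρ G ρ2 (gs G2 ρ2) ∧
    D.Ex ρ2 (gs G2 ρ2) (ρ1 ∪ ρ2) G2

/-- SD: the class `C(s)`: monotonicity, restrictions and amalgams -/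
def T_SD : Prop := ∀ D : Cx, D.Ok → D.Tab → ∀ s ρ G, D.St ρ G → s ⊆ ρ →
  (∀ s', s' ⊆ s → D.Cl s ρ G → D.Cl s' ρ G) ∧
  (∀ ρ', D.N ρ' → s ⊆ ρ' → ρ' ⊆ ρ → Tr ρ' → D.Cl s ρ G → D.Cl s ρ' (gs G ρ')) ∧
  ∀ ρ1 ρ2, D.N ρ1 → D.N ρ2 → Tr ρ1 → Tr ρ2 → ρ = ρ1 ∪ ρ2 → D.Cl s ρ1 (gs G ρ1) →
    D.Cl s ρ2 (gs G ρ2) → D.Cl s ρ G

/-- SE: the table and the rules: a label obeys a rule iff its restriction does -/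
def T_SE : Prop := ∀ D : Cx, D.Ok → D.Tab → ∀ ρ G, D.St ρ G → ∀ s, s ⊆ ρ →
  (D.Cl s ρ G ↔ (∀ i ∈ ρ, ¬ Pro ρ G (ev G (lY i))) ∧
    ∀ k ∈ s, ∀ i ∈ ρ, k ∈ lS i → D.Ob k i (gs G (lS i)))

end SE
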