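import Pool.Agent.H38.SE.TarC
import Pool.Agent.H38.SE.TarS
import Pool.Agent.H9.SE.Tar0

/-! # Part Z: the final argument. Targets -/

set_option linter.unusedVariables false

open Ordinal Order Set
open scoped ZFSet

namespace SE

open SF

/-- the context with the correct table -/
structure Cx.Ful (D : Cx) : Prop where
  ok : D.Ok
  tab : D.Tab
  lam : D.N D.Lam

/-! ## Interface of part W (definability) -/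

/-- WZ: the table exists -/
def T_WZ : Prop := ∀ D : Cx, D.Ok → ∃ T : V → V, Cx.Ful ⟨D.N, D.H, D.L, T⟩

/-- WD: decided properties -/
def T_WD : Prop := ∀ D : Cx, D.Ok → D.Tab → ∀ ρ ∈ D.H, Cld D.L ρ →
  (∀ s ∈ D.H, s ⊆ ρ → D.Dec ρ (fun G => D.Cl s ρ G)) ∧
  (∀ s, D.N s → s ⊆ ρ → D.Dec ρ (fun G => Resp s ρ G)) ∧
  (∀ A X, D.N A → D.N X → Nam D.L ρ A → Nam D.L ρ X →
    D.Dec ρ (fun G => D.Sec ρ G (ev G A) (ev G X)) ∧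
    D.Dec ρ (fun G => D.SecS ρ G (ev G A) (ev G X)) ∧
    D.Dec ρ (fun G => P3 (D.W G) (ev G A) (ev G X))) ∧
  (∀ k ∈ ρ, ∀ X, D.N X → Nam D.L ρ X → D.Dec ρ (fun G => D.Side k ρ G (ev G X))) ∧
  ∀ k ∈ ρ, D.Dec ρ (fun G => D.Beta k G) ∧ D.Dec ρ (fun G => D.Unk k G)

/-! ## Interface of part T (transfer) -/

/-- TP1: copies which respect the promises -/
def T_TP1 : Prop := ∀ D : Cx, D.Ful → ∀ G, D.Gn D.Lam G → ∀ s ∈ D.H, s ⊆ D.Lam → Tr s →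
  ∀ ρ' G0 p', D.Ex s (gs G s) ρ' G0 → Resp s ρ' G0 → p' ∈ G0 →
  ∃ G' ρ'', D.Ex s (gs G s) ρ' G' ∧ p' ∈ G' ∧ ρ'' ∈ D.H ∧ s ⊆ ρ'' ∧ ρ'' ⊆ D.Lam ∧ Tr ρ'' ∧
    ∀ x, D.W G' x ↔ D.W (gs G ρ'') x

/-- TP2: copies of states in the class `C(s)` -/
def T_TP2 : Prop := ∀ D : Cx, D.Ful → ∀ G, D.Gn D.Lam G → ∀ s ∈ D.H, s ⊆ D.Lam → Tr s →
  ∀ ρ' G0 p', D.Ex s (gs G s) ρ' G0 → D.Cl s ρ' G0 → p' ∈ G0 →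
  ∃ G' ρ'', D.Ex s (gs G s) ρ' G' ∧ p' ∈ G' ∧ ρ'' ∈ D.H ∧ s ⊆ ρ'' ∧ ρ'' ⊆ D.Lam ∧ Tr ρ'' ∧
    (∀ x, D.W G' x ↔ D.W (gs G ρ'') x) ∧
    ∀ a x, D.SecS ρ' G' a x → D.SecS ρ'' (gs G ρ'') a x

/-- TP3: copies which are disjoint from a given set outside of `ρ` -/
def T_TP3 : Prop := ∀ D : Cx, D.Ful → ∀ ρ ρ' ρ1 p', ρ ∈ D.H → ρ' ∈ D.H → ρ1 ∈ D.H →
  Cld D.L ρ' → Tr ρ → ρ ⊆ ρ' → ρ ⊆ ρ1 → p' ∈ D.P ρ' →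
  ∃ ρ'' p'', ρ'' ∈ D.H ∧ Cld D.L ρ'' ∧ ρ ⊆ ρ'' ∧ ρ1 ∩ ρ'' ⊆ ρ ∧ p'' ∈ D.P ρ'' ∧
    rst ρ p'' = rst ρ p' ∧ ∀ G'', D.Gn ρ'' G'' → p'' ∈ G'' →
      ∃ G', D.Gn ρ' G' ∧ p' ∈ G' ∧ gs G' ρ = gs G'' ρ ∧ (∀ x, D.W G' x ↔ D.W G'' x) ∧
        (∀ s, s ∈ D.H → s ⊆ ρ → Tr s → D.Cl s ρ' G' → D.Cl s ρ'' G'') ∧
        ∀ a x, D.SecS ρ' G' a x → D.SecS ρ'' G'' a x

/-! ## Targets -/

/-- ZX: decided properties are closed under negation and conjunction -/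
def T_ZX : Prop := ∀ D : Cx, D.Ok → ∀ ρ, D.N ρ → Cld D.L ρ → ∀ X : V → Prop, D.Dec ρ X →
  D.Dec ρ (fun G => ¬ X G) ∧ (∀ Y : V → Prop, D.Dec ρ Y → D.Dec ρ (fun G => X G ∧ Y G)) ∧
  ∀ G, D.Gn ρ G → X G → ∃ p ∈ G, ∀ G', D.Gn ρ G' → p ∈ G' → X G'

/-- ZY: generic reals of different labels; locality of `Unk` and `Beta` -/
def T_ZY : Prop := ∀ D : Cx, D.Ok → ∀ ρ G, D.N ρ → Cld D.L ρ → D.Gn ρ G →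
  (∀ k ∈ ρ, ∀ k' ∈ ρ, cg G k = cg G k' → k = k') ∧
  (∀ k ∈ ρ, ∀ s, D.N s → s ⊆ ρ → Tr s → D.W (gs G s) (cg G k) → k ∈ s) ∧
  ∀ k ∈ ρ, ∀ s, D.N s → s ⊆ ρ → Tr s → k ∈ s → (D.Unk k (gs G s) ↔ D.Unk k G) ∧
    (D.Beta k (gs G s) ↔ D.Beta k G)

/-- ZA: the set of all legal labels -/
def T_ZA : Prop := ∀ D : Cx, D.Ful → D.Lam ⊆ D.H ∧ Cld D.L D.Lam ∧ (∀ i ∈ D.Lam, D.Leg i) ∧
  (∀ i, D.Leg i → lS i ⊆ D.Lam → i ∈ D.Lam) ∧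
  ∀ G, D.Gn D.Lam G →
    (∀ s ∈ D.H, s ⊆ D.Lam → Tr s → D.St s (gs G s) ∧
      (∀ s', s' ⊆ s → D.Cl s' s (gs G s)) ∧
      (∀ x, Pro s (gs G s) x → Pro D.Lam G x) ∧
      (∀ x, D.W (gs G s) x → D.W G x) ∧
      (∀ i ∈ s, cg (gs G s) i = cg G i ∧ ev (gs G s) (lY i) = ev G (lY i) ∧
        ev (gs G s) (lZ i) = ev G (lZ i) ∧ ev (gs G s) (lA i) = ev G (lA i) ∧
        ev (gs G s) (lB i) = ev G (lB i)) ∧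
      ∀ s' ∈ D.H, s ⊆ s' → s' ⊆ D.Lam → Tr s' → D.Ex s (gs G s) s' (gs G s')) ∧
    (∀ i ∈ D.Lam, ¬ Pro D.Lam G (ev G (lY i))) ∧
    ∀ s ∈ D.H, s ⊆ D.Lam → Tr s →
      (∀ y, D.W G y → Rl y → ∃ s' ∈ D.H, s ⊆ s' ∧ s' ⊆ D.Lam ∧ Tr s' ∧ D.W (gs G s') y) ∧
      (∀ i ∈ D.Lam, ∃ s' ∈ D.H, s ⊆ s' ∧ i ∈ s' ∧ s' ⊆ D.Lam ∧ Tr s') ∧
      ∀ s1 ∈ D.H, s1 ⊆ D.Lam → Tr s1 → s ∪ s1 ∈ D.H ∧ s ∪ s1 ⊆ D.Lam ∧ Tr (s ∪ s1)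

/-- ZB: criterion for labels to be in `Lam` -/
def T_ZB : Prop := ∀ D : Cx, D.Ful → ∀ (e : ℕ) (s Y Z A B : V), e ≤ 2 → s ∈ D.H → s ⊆ D.Lam →
  Tr s → D.N Y → D.N Z → D.N A → D.N B → Nam D.L s Y → Nam D.L s Z → Nam D.L s A →
  Nam D.L s B → (∀ G, D.Gn s G → ¬ Pro s G (ev G Y)) →
  ((∀ G, D.Gn s G → ∀ k ∈ s, D.Ob k (lab (nS e) ∅ s Y Z A B) G) ∨
    ∀ G, D.Gn s G → ev G Z = kc 0) →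
  lab (nS e) ∅ s Y Z A B ∈ D.Lam

/-- ZC: a secured fact is true in the final model -/
def T_ZC : Prop := ∀ D : Cx, D.Ful → ∀ G, D.Gn D.Lam G → ∀ s ∈ D.H, s ⊆ D.Lam → Tr s →
  ∀ a x, D.W (gs G s) a → Rl a → D.W (gs G s) x → Rl x → D.Sec s (gs G s) a x → P3 (D.W G) a x

/-- ZD: a true fact is secured -/
def T_ZD : Prop := ∀ D : Cx, D.Ful → ∀ G, D.Gn D.Lam G → ∀ s ∈ D.H, s ⊆ D.Lam → Tr s →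
  ∀ a x, D.W (gs G s) a → Rl a → D.W (gs G s) x → Rl x → P3 (D.W G) a x →
  D.Sec s (gs G s) a x

/-- ZE: the same for `Σ¹₄` facts -/
def T_ZE : Prop := ∀ D : Cx, D.Ful → ∀ G, D.Gn D.Lam G → ∀ s ∈ D.H, s ⊆ D.Lam → Tr s →
  ∀ a x, D.W (gs G s) a → Rl a → D.W (gs G s) x → Rl x →
    (S4 (D.W G) a x ↔ ∃ s' ∈ D.H, s ⊆ s' ∧ s' ⊆ D.Lam ∧ Tr s' ∧ D.SecS s' (gs G s') a x)

/-- ZF: the promised reals are definable -/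
def T_ZF : Prop := ∀ D : Cx, D.Ful → ∀ G, D.Gn D.Lam G → ∀ z, D.W G z → Rl z → z ≠ kc 0 →
  ((∃ a, D.W G a ∧ Rl a ∧ ¬ Cod (D.W G) D.L (prl z a)) ↔ ∃ i ∈ D.Lam, ev G (lZ i) = z)

/-- ZG: invariance -/
def T_ZG : Prop := ∀ D : Cx, D.Ful → ∀ ρ G ρ1 G1 k y, D.St ρ G → D.Ex ρ G ρ1 G1 → k ∈ ρ →
  D.Cl (lS k) ρ1 G1 → D.W G y → Rl y →
  (D.Side k ρ G y ↔ D.Side k ρ1 G1 y) ∧
  (D.Side k ρ G y → D.SecS ρ1 G1 (ev G1 (lB k)) y → ¬ D.Unk k G1)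

/-- ZH: labels with given codes -/
def T_ZH : Prop := ∀ D : Cx, D.Ful → ∀ G, D.Gn D.Lam G → ∀ (e : ℕ) a b, e ≤ 2 →
  D.W G a → Rl a → D.W G b → Rl b →
  ∃ k ∈ D.Lam, lE k = nS e ∧ ev G (lA k) = a ∧ ev G (lB k) = b

/-- ZI: disjoint sets cannot be made non-disjoint -/
def T_ZI : Prop := ∀ D : Cx, D.Ful → ∀ G, D.Gn D.Lam G → ∀ k ∈ D.Lam,
  (∀ x, D.W G x → Rl x → ¬ (S4 (D.W G) (ev G (lA k)) x ∧ S4 (D.W G) (ev G (lB k)) x)) →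
  D.Unk k G

/-- ZJ: the two sides of a label of type 1 -/
def T_ZJ : Prop := ∀ D : Cx, D.Ful → ∀ G, D.Gn D.Lam G → ∀ k ∈ D.Lam, lE k = nS 1 →
  D.Unk k G → ∀ s ∈ D.H, s ⊆ D.Lam → Tr s → k ∈ s → ∀ y, D.W (gs G s) y → Rl y →
  (D.Side k s (gs G s) y ↔ ∃ i ∈ D.Lam, ev G (lZ i) = prl (kc 0) (prl (cg G k) y)) ∧
  (¬ D.Side k s (gs G s) y ↔ ∃ i ∈ D.Lam, ev G (lZ i) = prl (kc 1) (prl (cg G k) y))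

/-- the complexity of the coding -/
def Cmx (W : V → Prop) (L : V) : Prop :=
  ∃ a, W a ∧ Rl a ∧ ∀ x, W x → Rl x → (¬ Cod W L x ↔ P3 W a x)

/-- ZK: separation -/
def T_ZK : Prop := ∀ D : Cx, D.Ful → ∀ G, D.Gn D.Lam G → Cmx (D.W G) D.L → SepH (D.W G)

/-- ZL: the labels of type 2, first case -/
def T_ZL : Prop := ∀ D : Cx, D.Ful → ∀ G, D.Gn D.Lam G → ∀ k ∈ D.Lam, lE k = nS 2 →
  ((∃ i ∈ D.Lam, ev G (lZ i) = prl (kc 2) (cg G k)) →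
    D.Beta k G ∧ S4 (D.W G) (ev G (lB k)) (cg G k)) ∧
  ((∃ i ∈ D.Lam, ev G (lZ i) = prl (kc 3) (cg G k)) →
    ¬ D.Beta k G ∧ S4 (D.W G) (ev G (lA k)) (cg G k))

/-- ZM: the labels of type 2, second case -/
def T_ZM : Prop := ∀ D : Cx, D.Ful → ∀ G, D.Gn D.Lam G → ∀ k ∈ D.Lam, lE k = nS 2 →
  (D.Beta k G → ∃ i ∈ D.Lam, ev G (lZ i) = prl (kc 2) (cg G k)) ∧
  (¬ D.Beta k G → S4 (D.W G) (ev G (lA k)) (cg G k) →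
    ∃ i ∈ D.Lam, ev G (lZ i) = prl (kc 3) (cg G k)) ∧
  (S4 (D.W G) (ev G (lB k)) (cg G k) → (∀ i ∈ D.Lam, ev G (lZ i) ≠ prl (kc 2) (cg G k) ∧
    ev G (lZ i) ≠ prl (kc 3) (cg G k)) → D.Beta k G)

/-- ZN: no reduction -/
def T_ZN : Prop := ∀ D : Cx, D.Ful → ∀ G, D.Gn D.Lam G → Cmx (D.W G) D.L → NoRedH (D.W G)

/-- ZZ: the main theorem -/
def T_ZZ : Prop := PSR.Goal

end SE
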