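import Pool.Agent.H38.SE.TarZ

/-! # ZC: a secured fact is true in the final model -/

set_option linter.unusedVariables false

open Ordinal Order Set
open scoped ZFSet

namespace SE

open SF

theorem pf_ZC (hAH : T_AH) (hAI : T_AI) (hBJ : T_BJ) (hSA : T_SA) (hZA : T_ZA) (hSHO : T_SHO) :
    T_ZC := by
  intro D hF G hG s hsH hsL hsT a x haW hra hxW hrx hsec y1 hy1 hry1
  obtain ⟨hLH, hCL, -, -, hZAG⟩ := hZA D hF
  obtain ⟨hst, -, hsup⟩ := hZAG G hG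
  obtain ⟨-, hHt, hHN, -, hmain⟩ := hBJ D hF.ok
  obtain ⟨-, hm⟩ := hmain D.Lam hF.lam hCL
  obtain ⟨⟨hzfc, hsub, -, -, hord⟩, -, -⟩ := hm G hG
  obtain ⟨s', hs'H, hss', hs'L, hs'T, hys'⟩ := (hsup s hsH hsL hsT).1 y1 hy1 hry1
  obtain ⟨hSt, hcl, hpro, hWsub, -, -⟩ := hst s' hs'H hs'L hs'T
  have hEx : D.Ex s (gs G s) s' (gs G s') :=
    (hst s hsH hsL hsT).2.2.2.2.2 s' hs'H hss' hs'L hs'T
  have hEx' := (hSA D hF.ok s (gs G s) (hst s hsH hsL hsT).1).2.2.2.2 s' (gs G s') hEx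
  have hxW' : D.W (gs G s') x := hEx'.2.2.1 x hxW
  have haW' : D.W (gs G s') a := hEx'.2.2.1 a haW
  have hresp : Resp s s' (gs G s') := by
    intro i hi hp
    refine (hcl ∅ (fun y hy => absurd hy (ZFSet.notMem_empty y))).con i hi ?_
    obtain ⟨j, hj, h1, h2⟩ := hp
    exact ⟨j, hss' hj, h1, h2⟩
  have hP3 := hsec s' (gs G s') hEx hresp
  obtain ⟨y2, hy2, hry2, h3⟩ := hP3 y1 hys' hry1
  obtain ⟨-, hm'⟩ := hmain s' (hHN s' hs'H) hSt.c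
  obtain ⟨⟨hzfc', hsub', -, -, hord'⟩, -, -⟩ := hm' (gs G s') hSt.g
  have hz : D.W (gs G s') (prl x y1) ∧ Rl (prl x y1) := by
    refine ⟨?_, (hAH.1 x y1 hrx hry1).1⟩
    exact hAI.2.2.1.1 (D.W (gs G s')) hzfc'.toZFCm.toZFm (cons x (cons y1 fun _ => x))
      (In.cons (In.cons (fun _ => hxW') hys') hxW')
  obtain ⟨y, hy, hry, h4⟩ := (hSHO (D.W (gs G s')) (D.W G) hzfc'.toZFCm hzfc.toZFCm
    hWsub (fun α h => (hord' α).2 ((hord α).1 h)) a (prl x y1) haW' hra hz.1 hz.2).1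
    ⟨y2, hy2, hry2, h3⟩
  exact ⟨y, hy, hry, h4⟩

end SE
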